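import Pool.Agent.GV.MF.Char

/-!
# GV-MF-PP: the polynomial of the frozen statement is the characteristic polynomial of `Mmat`

Plan.  `P` and `Mmat.charpoly` are monic polynomials over `ℚ` of degree `a - 1`; over `ℂ` all root
multiplicities agree (`LinearMap.finrank_maxGenEigenspace_eq` or similar in
Mathlib/LinearAlgebra/Eigenspace/Zero.lean: `finrank (maxGenEigenspace μ) =
 charpoly.rootMultiplicity μ`, and `charpoly_T`), so their images in `ℂ[X]` have the same multiset
of roots, both split, both monic, hence are equal; `Polynomial.map_injective`.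
The formula of the hypothesis: `Finset.range 2` has two terms, `ofComplex_hlf` (file Geo).
-/

open UpperHalfPlane ModularForm CongruenceSubgroup Complex
open scoped MatrixGroups Manifold ModularForm Real Topology

namespace Pool.Agent.GV.MF

theorem P_eq (e : Bool) (a : ℕ) (ha : 1 ≤ a)
    (T : Module.End ℂ (CuspForm G02 ((4 * a + 2 * e.toNat : ℕ) : ℤ)))
    (hT : ∀ (f : CuspForm G02 ((4 * a + 2 * e.toNat : ℕ) : ℤ)) (z : ℍ),
      (T f : ℍ → ℂ) z = (1 / ((2 : ℕ) : ℂ)) * ∑ j ∈ Finset.range 2,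
        (f : ℍ → ℂ) (UpperHalfPlane.ofComplex (((z : ℂ) + (j : ℂ)) / ((2 : ℕ) : ℂ))))
    (P : Polynomial ℚ) (hP : P.Monic)
    (hdeg : P.natDegree = Module.finrank ℂ (CuspForm G02 ((4 * a + 2 * e.toNat : ℕ) : ℤ)))
    (hroot : ∀ μ : ℂ, (P.map (algebraMap ℚ ℂ)).rootMultiplicity μ =
      Module.finrank ℂ (Module.End.maxGenEigenspace T μ)) :
    P = (Mmat e a).charpoly := by
  obtain ⟨-, hfin⟩ := finrank_cusp e a ha
  haveI := hfin
  have hT' : ∀ (f : CuspForm G02 ((4 * a + 2 * e.toNat : ℕ) : ℤ)) (z : ℍ),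
      (T f : ℍ → ℂ) z = UU (f : ℍ → ℂ) z := by
    intro f z
    rw [hT, Finset.sum_range_succ, Finset.sum_range_one, (ofComplex_hlf z).1, (ofComplex_hlf z).2,
      UU]
    push_cast
    ring
  have hc := charpoly_T e a ha T hT'
  have hinj : Function.Injective (algebraMap ℚ ℂ) := (algebraMap ℚ ℂ).injective
  apply Polynomial.map_injective (algebraMap ℚ ℂ) hinj
  have hM : ((Mmat e a).charpoly.map (algebraMap ℚ ℂ)).Monic :=
    (Matrix.charpoly_monic _).map _
  have hP' : (P.map (algebraMap ℚ ℂ)).Monic := hP.map _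
  have hroots : (P.map (algebraMap ℚ ℂ)).roots =
      ((Mmat e a).charpoly.map (algebraMap ℚ ℂ)).roots := by
    classical
    ext μ
    rw [Polynomial.count_roots, Polynomial.count_roots, hroot μ, ← hc,
      LinearMap.finrank_maxGenEigenspace_eq]
  rw [(IsAlgClosed.splits (P.map (algebraMap ℚ ℂ))).eq_prod_roots_of_monic hP', hroots,
    ← (IsAlgClosed.splits ((Mmat e a).charpoly.map (algebraMap ℚ ℂ))).eq_prod_roots_of_monic hM]

end Pool.Agent.GV.MF
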