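import Pool.Agent.GV.MF.UUr

/-!
# GV-MF-E2m: properties of `E_2` and of `ee = 2 E_2(2z) - E_2(z)`

Plan.  `E2_hasSum` is `EisensteinSeries.hasSum_qExpansion_E2` in Mathlib.
`UU_E2`: `UU_hasSum` and `σ 1 (2n) = 3 σ 1 n - 2 σ 1 (n/2)` (divisors of `2n` = (divisors of `n`) ∪
(2 * divisors of `n`), intersection `2 * divisors of (n/2)`), giving
`UU E2 = 3 E2 - 2 E2(2z)`; `UU (E2 ∘ dbl) = E2`; so `UU ee = 2 E2 - 3 E2 + 2 E2(2z) = ee`.
`ee_inv`: for `γ = (a b; 2c d)` in `Γ₀(2)`: `EisensteinSeries.E2_slash_action` for `γ` and for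
`γ' = (a 2b; c d)` (`γ' • (2z) = 2 (γ • z)`, `denom γ' (2z) = denom γ z`); the correction terms
`D2` cancel: `2 D2 γ' (2z) = D2 γ z`.
`ee_siv`: `E2(-1/z) = z² E2(z) + (6/(π i)) z ...` (`E2_slash_action` for `S`, `D2_S`):
`ee (siv z) = 2 E2 (2 siv z) - E2 (siv z)` with `2 siv z = siv (z/2)` (`dbl_siv`):
`= 2 (z/2)² E2(z/2) + c z - z² E2(z) - c z = z² (E2(z/2)/2 - E2(z)) = - z² ee(z/2) / 2`.
`ee_tendsto`: `E2 → 1` at `i∞` (from `hasSum`/`cuspFunction` or the bound of the series).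
-/

open UpperHalfPlane ModularForm CongruenceSubgroup Complex
open scoped MatrixGroups Manifold ModularForm Real Topology

namespace Pool.Agent.GV.MF

section aux

private noncomputable def a2 (m : ℕ) : ℂ := if m = 0 then 1 else -24 * ArithmeticFunction.sigma 1 m

private lemma hE2 (z : ℍ) : HasSum (fun n => a2 n * qq z ^ n) (EisensteinSeries.E2 z) := by
  have h := EisensteinSeries.hasSum_qExpansion_E2 z
  exact h

private lemma qq_shf (z : ℍ) : qq (shf z) = qq z := by
  unfold qq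
  rw [coe_shf]
  have h : 2 * (π : ℂ) * Complex.I * ((z : ℂ) + 1) = 2 * π * Complex.I * z + 2 * π * Complex.I := by ring
  rw [h, Complex.exp_add, Complex.exp_two_pi_mul_I, mul_one]

private lemma qq_dbl (z : ℍ) : qq (dbl z) = qq z ^ 2 := by
  unfold qq
  rw [coe_dbl, ← Complex.exp_nat_mul]
  congr 1
  push_cast
  ring

private lemma E2_per : Per EisensteinSeries.E2 := by
  intro z
  have h1 := hE2 (shf z)
  rw [qq_shf] at h1
  exact h1.unique (hE2 z)

private lemma E2_tendsto : Filter.Tendsto EisensteinSeries.E2 atImInfty (𝓝 1) := by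
  have hper := per_comp_ofComplex E2_per
  have hq : ∀ τ : ℍ, HasSum (fun m => a2 m • Function.Periodic.qParam (1 : ℝ) τ ^ m) (EisensteinSeries.E2 τ) := by
    intro τ
    have h := hE2 τ
    simpa only [Function.Periodic.qParam, ofReal_one, div_one, qq, smul_eq_mul] using h
  have han := UpperHalfPlane.analyticAt_cuspFunction_zero one_pos hper E2_mdifferentiable
    EisensteinSeries.isBoundedAtImInfty_E2
  have hps := UpperHalfPlane.hasFPowerSeriesOnBall_cuspFunction one_pos han hq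
  have h0 : UpperHalfPlane.cuspFunction (1 : ℝ) EisensteinSeries.E2 0 = 1 := by
    have h := hps.hasFPowerSeriesAt.coeff_zero (fun _ => 0)
    rw [← h]
    simp [a2]
  have hc : (UpperHalfPlane.cuspFunction (1 : ℝ) EisensteinSeries.E2 ∘
      fun τ : ℍ => Function.Periodic.qParam (1 : ℝ) τ) = EisensteinSeries.E2 := by
    funext τ
    exact UpperHalfPlane.eq_cuspFunction τ one_ne_zero hper
  have ht := han.continuousAt.tendsto.comp (UpperHalfPlane.qParam_tendsto_atImInfty one_pos)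
  rw [h0, hc] at ht
  exact ht

private noncomputable def KK : ℂ := 1 / (2 * riemannZeta 2) * (2 * π * Complex.I)

private lemma E2_smul (γ : SL(2, ℤ)) (z : ℍ) :
    EisensteinSeries.E2 (γ • z) = UpperHalfPlane.denom γ z ^ 2 * EisensteinSeries.E2 z -
      KK * (γ 1 0 : ℂ) * UpperHalfPlane.denom γ z := by
  have h := congrFun (EisensteinSeries.E2_slash_action γ) z
  have hd : UpperHalfPlane.denom γ z ≠ 0 := UpperHalfPlane.denom_ne_zero _ z
  rw [ModularForm.SL_slash_apply] at h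
  simp only [Pi.sub_apply, Pi.smul_apply, smul_eq_mul, EisensteinSeries.D2] at h
  have h2 : UpperHalfPlane.denom γ z ^ (-2 : ℤ) = (UpperHalfPlane.denom γ z ^ 2)⁻¹ := by
    rw [zpow_neg]
    norm_cast
  rw [h2] at h
  have h3 : EisensteinSeries.E2 (γ • z) = UpperHalfPlane.denom γ z ^ 2 *
      (EisensteinSeries.E2 (γ • z) * (UpperHalfPlane.denom γ z ^ 2)⁻¹) := by
    field_simp
  rw [h3, h]
  unfold KK
  field_simp

private lemma E2_siv (z : ℍ) : EisensteinSeries.E2 (siv z) = (z : ℂ) ^ 2 * EisensteinSeries.E2 z - KK * z := by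
  have h := E2_smul ModularGroup.S z
  have hd : UpperHalfPlane.denom ModularGroup.S z = (z : ℂ) := by
    simp [ModularGroup.S, ModularGroup.denom_apply]
  rw [hd] at h
  have h1 : ((ModularGroup.S 1 0 : ℤ) : ℂ) = 1 := by simp [ModularGroup.S]
  unfold siv
  rw [h, h1, mul_one]

private lemma sig_two {n : ℕ} (hn : n ≠ 0) :
    ArithmeticFunction.sigma 1 (2 * n) + 2 * (if Even n then ArithmeticFunction.sigma 1 (n / 2) else 0) =
      3 * ArithmeticFunction.sigma 1 n := by
  obtain ⟨k, r, hr, hk⟩ := Nat.exists_eq_two_pow_mul_odd hn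
  have hmul : ∀ j, ArithmeticFunction.sigma 1 (2 ^ j * r) =
      ArithmeticFunction.sigma 1 (2 ^ j) * ArithmeticFunction.sigma 1 r := by
    intro j
    apply ArithmeticFunction.isMultiplicative_sigma.map_mul_of_coprime
    exact Nat.Coprime.pow_left j (Nat.coprime_two_left.2 hr)
  have hs : ∀ j, ArithmeticFunction.sigma 1 (2 ^ j) = ∑ i ∈ Finset.range (j + 1), 2 ^ i := by
    intro j
    rw [ArithmeticFunction.sigma_apply_prime_pow Nat.prime_two]
    simp
  have hs' : ∀ j, ArithmeticFunction.sigma 1 (2 ^ (j + 1)) = ArithmeticFunction.sigma 1 (2 ^ j) + 2 ^ (j + 1) := by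
    intro j
    rw [hs, hs, Finset.sum_range_succ]
  rcases Nat.eq_zero_or_pos k with h0 | h0
  · subst h0
    rw [pow_zero, one_mul] at hk
    subst hk
    have h1 : ¬ Even n := Nat.not_even_iff_odd.2 hr
    rw [if_neg h1, mul_zero, add_zero]
    have h2 := hmul 1
    rw [pow_one] at h2
    rw [h2]
    have h3 := hs 1
    rw [pow_one] at h3
    rw [h3]
    simp [Finset.sum_range_succ]
  · obtain ⟨j, rfl⟩ : ∃ j, k = j + 1 := ⟨k - 1, by omega⟩
    have h1 : Even n := by
      rw [hk, pow_succ]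
      exact ⟨2 ^ j * r, by ring⟩
    have h2 : n / 2 = 2 ^ j * r := by
      rw [hk, pow_succ]
      have h3 : 2 ^ j * 2 * r = 2 * (2 ^ j * r) := by ring
      rw [h3, Nat.mul_div_cancel_left _ (by norm_num)]
    have h3 : 2 * n = 2 ^ (j + 2) * r := by
      rw [hk]
      ring
    rw [if_pos h1, h2, h3, hk, hmul, hmul, hmul, hs' (j + 1), hs' j]
    ring

private lemma UU_E2 (z : ℍ) : UU EisensteinSeries.E2 z =
    3 * EisensteinSeries.E2 z - 2 * EisensteinSeries.E2 (dbl z) := by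
  have h1 := UU_hasSum hE2 z
  have h2 := hE2 z
  have h3 : HasSum (fun n => (if Even n then a2 (n / 2) else 0) * qq z ^ n) (EisensteinSeries.E2 (dbl z)) := by
    have h4 := hE2 (dbl z)
    have hinj : Function.Injective (fun n : ℕ => 2 * n) := fun a b hab => by
      have : 2 * a = 2 * b := hab
      omega
    rw [← hinj.hasSum_iff]
    · refine h4.congr_fun ?_
      intro n
      show (if Even (2 * n) then a2 (2 * n / 2) else 0) * qq z ^ (2 * n) = a2 n * qq (dbl z) ^ n
      rw [if_pos (even_two_mul n), Nat.mul_div_cancel_left _ (by norm_num), qq_dbl, ← pow_mul]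
    · intro n hn
      have h5 : ¬ Even n := by
        rintro ⟨m, hm⟩
        exact hn ⟨m, by show 2 * m = n; omega⟩
      rw [if_neg h5, zero_mul]
  have h6 := (h2.mul_left 3).sub (h3.mul_left 2)
  refine h1.unique ?_
  refine h6.congr_fun ?_
  intro n
  show a2 (2 * n) * qq z ^ n = 3 * (a2 n * qq z ^ n) - 2 * ((if Even n then a2 (n / 2) else 0) * qq z ^ n)
  have h7 : a2 (2 * n) = 3 * a2 n - 2 * (if Even n then a2 (n / 2) else 0) := by
    rcases Nat.eq_zero_or_pos n with h0 | h0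
    · subst h0
      simp [a2]
      norm_num
    · have h8 := sig_two h0.ne'
      have h9 : (ArithmeticFunction.sigma 1 (2 * n) : ℂ) +
          2 * (if Even n then (ArithmeticFunction.sigma 1 (n / 2) : ℂ) else 0) = 3 * ArithmeticFunction.sigma 1 n := by
        have h10 := congrArg (fun t : ℕ => (t : ℂ)) h8
        push_cast at h10
        by_cases he : Even n
        · rw [if_pos he] at h10 ⊢
          exact_mod_cast h10
        · rw [if_neg he] at h10 ⊢
          exact_mod_cast h10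
      unfold a2
      rw [if_neg (by omega), if_neg h0.ne']
      by_cases he : Even n
      · rw [if_pos he] at h9 ⊢
        have h11 : n / 2 ≠ 0 := by
          obtain ⟨m, hm⟩ := he
          omega
        rw [if_neg h11]
        linear_combination (-24) * h9
      · rw [if_neg he] at h9 ⊢
        linear_combination (-24) * h9
  rw [h7]
  ring

end aux

lemma ee_mdiff : MDiff ee := by
  have h1 : MDiff (EisensteinSeries.E2) := E2_mdifferentiable
  have h2 := mdiff_dbl h1
  rw [UpperHalfPlane.mdifferentiable_iff] at h1 h2 ⊢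
  exact (h2.const_mul 2).sub h1

lemma ee_per : Per ee := by
  intro z
  unfold ee
  have h1 : EisensteinSeries.E2 (dbl (shf z)) = EisensteinSeries.E2 (dbl z) := per_dbl E2_per z
  rw [E2_per z, h1]

lemma ee_tendsto : Filter.Tendsto ee atImInfty (𝓝 1) := by
  have h1 := E2_tendsto.comp tendsto_dbl
  have h2 := (h1.const_mul 2).sub E2_tendsto
  have h3 : (2 : ℂ) * 1 - 1 = 1 := by norm_num
  rw [h3] at h2
  exact h2

lemma ee_siv (z : ℍ) : ee (siv z) = -((z : ℂ) ^ 2 * ee (hlf0 z)) / 2 := by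
  unfold ee
  rw [dbl_siv, dbl_hlf0, E2_siv, E2_siv, coe_hlf0]
  ring

lemma ee_inv : Inv 2 ee := by
  intro γ hγ z
  rw [CongruenceSubgroup.Gamma0_mem] at hγ
  have h1 : (2 : ℤ) ∣ γ 1 0 := by
    have h2 := (ZMod.intCast_zmod_eq_zero_iff_dvd (γ 1 0) 2).1 hγ
    exact_mod_cast h2
  obtain ⟨c, hc⟩ := h1
  have hdet : γ 0 0 * γ 1 1 - γ 0 1 * γ 1 0 = 1 := by
    have h3 := γ.det_coe
    rw [Matrix.det_fin_two] at h3
    exact h3
  let γ' : SL(2, ℤ) := ⟨!![γ 0 0, 2 * γ 0 1; c, γ 1 1], by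
    rw [Matrix.det_fin_two_of]
    rw [hc] at hdet
    linarith⟩
  have hden : UpperHalfPlane.denom γ' (dbl z) = UpperHalfPlane.denom γ z := by
    rw [ModularGroup.denom_apply, ModularGroup.denom_apply, coe_dbl, hc]
    show (c : ℂ) * (2 * (z : ℂ)) + (γ 1 1 : ℂ) = ((2 * c : ℤ) : ℂ) * z + (γ 1 1 : ℂ)
    push_cast
    ring
  have hsm : dbl (γ • z) = γ' • dbl z := by
    apply UpperHalfPlane.ext
    rw [coe_dbl, UpperHalfPlane.coe_specialLinearGroup_apply, UpperHalfPlane.coe_specialLinearGroup_apply, coe_dbl]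
    have hd : (((γ 1 0 : ℤ) : ℝ) : ℂ) * (z : ℂ) + ((γ 1 1 : ℤ) : ℝ) ≠ 0 := by
      have h4 := UpperHalfPlane.denom_ne_zero γ z
      rw [ModularGroup.denom_apply] at h4
      push_cast
      exact h4
    have hg1 : (γ' 0 0 : ℤ) = γ 0 0 := rfl
    have hg2 : (γ' 0 1 : ℤ) = 2 * γ 0 1 := rfl
    have hg3 : (γ' 1 0 : ℤ) = c := rfl
    have hg4 : (γ' 1 1 : ℤ) = γ 1 1 := rfl
    rw [hg1, hg2, hg3, hg4]
    rw [hc] at hd ⊢
    simp only [algebraMap_int_eq, eq_intCast]
    push_cast at hd ⊢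
    have hd2 : (c : ℂ) * (2 * (z : ℂ)) + (γ 1 1 : ℂ) ≠ 0 := by
      intro h
      apply hd
      rw [← h]
      ring
    rw [eq_div_iff hd2, mul_assoc, div_mul_eq_mul_div]
    rw [mul_div_assoc']
    rw [div_eq_iff hd]
    ring
  unfold ee
  rw [hsm, E2_smul, E2_smul, hden, hc]
  show 2 * (UpperHalfPlane.denom γ z ^ 2 * EisensteinSeries.E2 (dbl z) - KK * (c : ℂ) * UpperHalfPlane.denom γ z) -
    (UpperHalfPlane.denom γ z ^ 2 * EisensteinSeries.E2 z - KK * ((2 * c : ℤ) : ℂ) * UpperHalfPlane.denom γ z) =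
    UpperHalfPlane.denom γ z ^ 2 * (2 * EisensteinSeries.E2 (dbl z) - EisensteinSeries.E2 z)
  push_cast
  ring

lemma UU_ee (z : ℍ) : UU ee z = ee z := by
  have h1 := UU_E2 z
  unfold UU at h1
  unfold UU ee
  rw [dbl_hlf0, dbl_hlf1, E2_per z]
  linear_combination (-1) * h1

end Pool.Agent.GV.MF
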