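import Pool.Agent.GV.MF.Del
import Pool.Agent.GV.MF.E2m

/-!
# GV-MF-Indep: the functions `F_e φ^(a-j) ψ^j` are cusp forms and linearly independent

Plan.  `isCF_basis`: `Inv`: multiplicativity; at `i∞`: `ψ^j → 0`, the others have limits;
at `0`: `phi_siv`, `psi_siv`, `ee_siv`: the function is a constant times
`F(z/2) ψ(z/2)^(a-j) φ(z/2)^j → 0` since `a - j ≥ 1`.
`indep`: if `∑ c_j F φ^(a-j) ψ^j = 0` on `ℍ` then (cancel the non-zero holomorphic `F` with
`UpperHalfPlane.mul_eq_zero_iff`, divide by `φ^a`) `∑ c_j y^j = 0` for all values `y = ψ/φ`; these are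
infinitely many (`y ≠ 0`, `y → 0`), so the polynomial is zero
(`Polynomial.eq_zero_of_infinite_isRoot`).
-/

open UpperHalfPlane ModularForm CongruenceSubgroup Complex
open scoped MatrixGroups Manifold ModularForm Real Topology

namespace Pool.Agent.GV.MF

private lemma ib_FF_mdiff (e : Bool) : MDiff (FF e) := by
  cases e
  · exact mdifferentiable_const
  · exact ee_mdiff

private lemma ib_FF_inv (e : Bool) : Inv (2 * e.toNat) (FF e) := by
  cases e
  · intro γ _ z
    simp [FF]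
  · intro γ hγ z
    have h := ee_inv γ hγ z
    simpa [FF] using h

private lemma ib_FF_tendsto (e : Bool) : Filter.Tendsto (FF e) atImInfty (𝓝 1) := by
  cases e
  · exact tendsto_const_nhds
  · exact ee_tendsto

private lemma ib_FF_siv (e : Bool) : ∃ c : ℂ, ∀ z : ℍ,
    FF e (siv z) = (z : ℂ) ^ (2 * e.toNat) * (c * FF e (hlf0 z)) := by
  cases e
  · exact ⟨1, fun z => by simp [FF]⟩
  · refine ⟨-1 / 2, fun z => ?_⟩
    have h := ee_siv z
    show ee (siv z) = (z : ℂ) ^ (2 * 1) * (-1 / 2 * ee (hlf0 z))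
    rw [h]
    ring

theorem isCF_basis (e : Bool) (a j : ℕ) (h1 : 1 ≤ j) (h2 : j + 1 ≤ a) :
    IsCF (4 * a + 2 * e.toNat) (fun z => FF e z * phi z ^ (a - j) * psi z ^ j) := by
  refine ⟨?_, ?_, ?_, ?_⟩
  · exact ((ib_FF_mdiff e).mul (phi_mdiff.pow (a - j))).mul (psi_mdiff.pow j)
  · intro γ hγ z
    have e1 : 4 * a + 2 * e.toNat = 2 * e.toNat + 4 * (a - j) + 4 * j := by omega
    simp only
    rw [ib_FF_inv e γ hγ z, phi_inv γ hγ z, psi_inv γ hγ z, e1, pow_add, pow_add, pow_mul _ 4 (a - j),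
      pow_mul _ 4 j]
    ring
  · have h3 := ((ib_FF_tendsto e).mul (phi_tendsto.pow (a - j))).mul (psi_tendsto.pow j)
    rw [zero_pow (by omega), mul_zero] at h3
    exact h3
  · obtain ⟨c, hc⟩ := ib_FF_siv e
    have hF := (ib_FF_tendsto e).comp tendsto_hlf0
    have hp := phi_tendsto.comp tendsto_hlf0
    have hs := psi_tendsto.comp tendsto_hlf0
    have h3 : Filter.Tendsto (fun z : ℍ => (c * FF e (hlf0 z)) * (16 * psi (hlf0 z)) ^ (a - j) *
        (phi (hlf0 z) / 256) ^ j) atImInfty (𝓝 ((c * 1) * (16 * 0) ^ (a - j) * (1 / 256) ^ j)) :=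
      ((hF.const_mul c).mul ((hs.const_mul 16).pow (a - j))).mul ((hp.div_const 256).pow j)
    rw [mul_zero, zero_pow (by omega), mul_zero, zero_mul] at h3
    refine h3.congr fun z => ?_
    have hz : (z : ℂ) ≠ 0 := UpperHalfPlane.ne_zero z
    have e1 : 4 * a + 2 * e.toNat = 2 * e.toNat + 4 * (a - j) + 4 * j := by omega
    rw [hc z, phi_siv z, psi_siv z, e1, pow_add, pow_add, pow_mul _ 4 (a - j), pow_mul _ 4 j, mul_assoc 16,
      mul_left_comm 16, mul_pow ((z : ℂ) ^ 4), mul_div_assoc, mul_pow ((z : ℂ) ^ 4) (phi (hlf0 z) / 256)]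
    field_simp

theorem indep (e : Bool) (a : ℕ) (c : ℕ → ℂ)
    (h : ∀ z, ∑ j ∈ Finset.Icc 1 (a - 1), c j * (FF e z * phi z ^ (a - j) * psi z ^ j) = 0) :
    ∀ j ∈ Finset.Icc 1 (a - 1), c j = 0 := by
  set p : Polynomial ℂ := ∑ j ∈ Finset.Icc 1 (a - 1), Polynomial.C (c j) * Polynomial.X ^ j with hp
  have hy0 : Filter.Tendsto (fun z => psi z / phi z) atImInfty (𝓝 0) := by
    have h1 := psi_tendsto.div phi_tendsto one_ne_zero
    rwa [zero_div] at h1
  have hF : ∀ᶠ z in atImInfty, FF e z ≠ 0 := (ib_FF_tendsto e).eventually_ne one_ne_zero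
  have hroot : ∀ z, FF e z ≠ 0 → p.IsRoot (psi z / phi z) := by
    intro z hz
    have hφ := phi_ne_zero z
    rw [Polynomial.IsRoot, hp, Polynomial.eval_finsetSum]
    simp only [Polynomial.eval_mul, Polynomial.eval_C, Polynomial.eval_pow, Polynomial.eval_X]
    have h2 : (FF e z * phi z ^ a) *
        ∑ j ∈ Finset.Icc 1 (a - 1), c j * (psi z / phi z) ^ j = 0 := by
      rw [← h z, Finset.mul_sum]
      refine Finset.sum_congr rfl fun j hj => ?_
      have hj' := Finset.mem_Icc.1 hj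
      have e1 : phi z ^ a = phi z ^ (a - j) * phi z ^ j := by
        rw [← pow_add]
        congr 1
        omega
      rw [e1, div_pow]
      field_simp
    exact (mul_eq_zero.1 h2).resolve_left (mul_ne_zero hz (pow_ne_zero _ hφ))
  have hp0 : p = 0 := by
    by_contra hne
    have hfin : Set.Finite {x | p.IsRoot x} := by
      by_contra hinf
      exact hne (Polynomial.eq_zero_of_infinite_isRoot p hinf)
    have hcl : IsClosed ({x | p.IsRoot x} \ {0}) := (hfin.subset Set.sdiff_subset).isClosed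
    have hn : ({x | p.IsRoot x} \ {0})ᶜ ∈ 𝓝 (0 : ℂ) := hcl.isOpen_compl.mem_nhds (by simp)
    obtain ⟨z, hz1, hz2⟩ := ((hy0.eventually hn).and hF).exists
    exact hz1 ⟨hroot z hz2, div_ne_zero (psi_ne_zero z) (phi_ne_zero z)⟩
  intro j hj
  have h3 : p.coeff j = c j := by
    rw [hp, Polynomial.finsetSum_coeff]
    simp only [Polynomial.coeff_C_mul, Polynomial.coeff_X_pow]
    rw [Finset.sum_eq_single j]
    · simp
    · intro b _ hb
      rw [if_neg (Ne.symm hb), mul_zero]
    · intro hj'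
      exact absurd hj hj'
  rw [← h3, hp0, Polynomial.coeff_zero]

end Pool.Agent.GV.MF
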