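import Pool.Agent.GV.MF.Edb
import Pool.Agent.GV.ALG.Rules

/-!
# GV-MF-Umain: the matrix of `U_2`

Plan.  Let `u a j z = UU (F φ^(a-j) ψ^j) z`, `v a j z = ∑_{l ≤ a} Mcoef e a l j F φ^(a-l) ψ^l`,
`j ≤ a`.  Both satisfy
(R1) `x (a+1) j + 16 x (a+1) (j+1) = (φ + 256 ψ) x a j` for `j ≤ a`
(`UU_rule1` with `F φ^(a-j) ψ^j`; for `v`: `Mcoef_rule1`, `Mcoef_zero_zero`, `Mcoef_zero_succ`,
`Mcoef_gt` (file ALG/Rules), splitting the sum over `l ≤ a+1`),
(R2) `x (a+2) (j+2) = 16 ψ x (a+1) (j+1) + φ ψ x a j` for `j ≤ a` (`UU_rule2`, `Mcoef_rule2`).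
Start: `x 0 0 = F` (`UU 1 = 1`, `UU_ee`; `Mcoef_zero_zero`), `x 1 1 = 8 ψ`, resp. `32 E ψ`
(`UU_psi`, `UU_ee_psi`; `Mcoef_one_one`, `Mcoef_zero_succ`).
Induction on `a` (strong): `x a a` from (R2), `x a j`, `j < a` from (R1) by downward induction on `j`.
-/

open UpperHalfPlane ModularForm CongruenceSubgroup Complex
open scoped MatrixGroups Manifold ModularForm Real Topology

namespace Pool.Agent.GV.MF

/-- two families with the same recursions and the same start are equal -/
private lemma rec_unique (u v : ℕ → ℕ → ℂ) (A C D : ℂ)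
    (hu1 : ∀ a j, j ≤ a → u (a + 1) j + 16 * u (a + 1) (j + 1) = A * u a j)
    (hv1 : ∀ a j, j ≤ a → v (a + 1) j + 16 * v (a + 1) (j + 1) = A * v a j)
    (hu2 : ∀ a j, j ≤ a → u (a + 2) (j + 2) = C * u (a + 1) (j + 1) + D * u a j)
    (hv2 : ∀ a j, j ≤ a → v (a + 2) (j + 2) = C * v (a + 1) (j + 1) + D * v a j)
    (h0 : u 0 0 = v 0 0) (h1 : u 1 1 = v 1 1) (a j : ℕ) (hj : j ≤ a) : u a j = v a j := by
  have diag : ∀ a, u a a = v a a ∧ u (a + 1) (a + 1) = v (a + 1) (a + 1) := by
    intro a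
    induction a with
    | zero => exact ⟨h0, h1⟩
    | succ a ih =>
      refine ⟨ih.2, ?_⟩
      rw [hu2 a a le_rfl, hv2 a a le_rfl, ih.1, ih.2]
  have main : ∀ k a j, j + k = a → u a j = v a j := by
    intro k
    induction k with
    | zero =>
      intro a j h
      have : j = a := by omega
      subst this
      exact (diag j).1
    | succ k ih =>
      intro a j h
      obtain ⟨a', rfl⟩ : ∃ a', a = a' + 1 := ⟨j + k, by omega⟩
      have e1 := hu1 a' j (by omega)
      have e2 := hv1 a' j (by omega)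
      have e3 := ih (a' + 1) (j + 1) (by omega)
      have e4 := ih a' j (by omega)
      rw [e3, e4] at e1
      linear_combination e1 - e2
  exact main (a - j) a j (by omega)

private lemma X_phi (F p s : ℂ) (a l : ℕ) (h : l ≤ a) :
    F * p ^ (a + 1 - l) * s ^ l = p * (F * p ^ (a - l) * s ^ l) := by
  have : a + 1 - l = (a - l) + 1 := by omega
  rw [this, pow_succ]
  ring

private lemma X_psi (F p s : ℂ) (a l : ℕ) :
    F * p ^ (a + 1 - (l + 1)) * s ^ (l + 1) = s * (F * p ^ (a - l) * s ^ l) := by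
  have : a + 1 - (l + 1) = a - l := by omega
  rw [this, pow_succ]
  ring

private lemma M_zero_row (e : Bool) (a b j : ℕ) : Mcoef e a 0 j = Mcoef e b 0 j := by
  rcases j with _ | j
  · rw [Mcoef_zero_zero, Mcoef_zero_zero]
  · rw [Mcoef_zero_succ, Mcoef_zero_succ]

private lemma v_rule1 (e : Bool) (F p s : ℂ) (a j : ℕ) (hj : j ≤ a) :
    (∑ l ∈ Finset.range (a + 1 + 1), (Mcoef e (a + 1) l j : ℂ) * (F * p ^ (a + 1 - l) * s ^ l)) +
      16 * (∑ l ∈ Finset.range (a + 1 + 1),
        (Mcoef e (a + 1) l (j + 1) : ℂ) * (F * p ^ (a + 1 - l) * s ^ l)) =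
      (p + 256 * s) *
        ∑ l ∈ Finset.range (a + 1), (Mcoef e a l j : ℂ) * (F * p ^ (a - l) * s ^ l) := by
  rw [Finset.mul_sum, ← Finset.sum_add_distrib]
  have h1 : ∀ l ∈ Finset.range (a + 1 + 1),
      (Mcoef e (a + 1) l j : ℂ) * (F * p ^ (a + 1 - l) * s ^ l) +
        16 * ((Mcoef e (a + 1) l (j + 1) : ℂ) * (F * p ^ (a + 1 - l) * s ^ l)) =
      (Mcoef e a l j : ℂ) * (F * p ^ (a + 1 - l) * s ^ l) +
        (match l with
          | 0 => 0
          | l + 1 => 256 * (Mcoef e a l j : ℂ) * (F * p ^ (a + 1 - (l + 1)) * s ^ (l + 1))) := by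
    intro l _
    rcases l with _ | l
    · simp only [Mcoef_zero_succ]
      rw [M_zero_row e (a + 1) a j]
      push_cast
      ring
    · have h := Mcoef_rule1 e a l j
      have hc : (Mcoef e (a + 1) (l + 1) j : ℂ) + 16 * (Mcoef e (a + 1) (l + 1) (j + 1) : ℂ) =
          (Mcoef e a (l + 1) j : ℂ) + 256 * (Mcoef e a l j : ℂ) := by exact_mod_cast h
      simp only
      linear_combination (F * p ^ (a + 1 - (l + 1)) * s ^ (l + 1)) * hc
  rw [Finset.sum_congr rfl h1, Finset.sum_add_distrib]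
  rw [Finset.sum_range_succ (fun l => (Mcoef e a l j : ℂ) * (F * p ^ (a + 1 - l) * s ^ l)) (a + 1),
    Mcoef_gt e a (a + 1) j hj (by omega)]
  rw [Finset.sum_range_succ' _ (a + 1)]
  simp only [Rat.cast_zero, zero_mul, add_zero]
  rw [← Finset.sum_add_distrib, Finset.mul_sum]
  apply Finset.sum_congr rfl
  intro l hl
  have hl' : l ≤ a := by
    have := Finset.mem_range.mp hl
    omega
  rw [X_phi F p s a l hl', X_psi F p s a l]
  ring

private lemma v_rule2 (e : Bool) (F p s : ℂ) (a j : ℕ) (hj : j ≤ a) :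
    (∑ l ∈ Finset.range (a + 2 + 1),
      (Mcoef e (a + 2) l (j + 2) : ℂ) * (F * p ^ (a + 2 - l) * s ^ l)) =
      16 * s * (∑ l ∈ Finset.range (a + 1 + 1),
        (Mcoef e (a + 1) l (j + 1) : ℂ) * (F * p ^ (a + 1 - l) * s ^ l)) +
      p * s *
        ∑ l ∈ Finset.range (a + 1), (Mcoef e a l j : ℂ) * (F * p ^ (a - l) * s ^ l) := by
  rw [Finset.sum_range_succ' _ (a + 2), Mcoef_zero_succ e (a + 2) (j + 1)]
  simp only [Rat.cast_zero, zero_mul, add_zero]
  have h1 : ∀ l ∈ Finset.range (a + 2),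
      (Mcoef e (a + 2) (l + 1) (j + 2) : ℂ) * (F * p ^ (a + 2 - (l + 1)) * s ^ (l + 1)) =
      16 * s * ((Mcoef e (a + 1) l (j + 1) : ℂ) * (F * p ^ (a + 1 - l) * s ^ l)) +
        (Mcoef e a l j : ℂ) * (s * (F * p ^ (a + 1 - l) * s ^ l)) := by
    intro l _
    have h := Mcoef_rule2 e a l j
    have hc : (Mcoef e (a + 2) (l + 1) (j + 2) : ℂ) =
        16 * (Mcoef e (a + 1) l (j + 1) : ℂ) + (Mcoef e a l j : ℂ) := by exact_mod_cast h
    have hx := X_psi F p s (a + 1) l
    rw [show a + 1 + 1 = a + 2 from rfl] at hx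
    rw [hc, hx]
    ring
  rw [Finset.sum_congr rfl h1, Finset.sum_add_distrib, ← Finset.mul_sum]
  congr 1
  rw [Finset.sum_range_succ _ (a + 1), Mcoef_gt e a (a + 1) j hj (by omega)]
  simp only [Rat.cast_zero, zero_mul, add_zero]
  rw [Finset.mul_sum]
  apply Finset.sum_congr rfl
  intro l hl
  have hl' : l ≤ a := by
    have := Finset.mem_range.mp hl
    omega
  rw [X_phi F p s a l hl']
  ring

theorem UU_main (e : Bool) (a j : ℕ) (hj : j ≤ a) (z : ℍ) :
    UU (fun z => FF e z * phi z ^ (a - j) * psi z ^ j) z =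
      ∑ l ∈ Finset.range (a + 1), (Mcoef e a l j : ℂ) * (FF e z * phi z ^ (a - l) * psi z ^ l) := by
  refine rec_unique (fun a j => UU (fun z => FF e z * phi z ^ (a - j) * psi z ^ j) z)
    (fun a j => ∑ l ∈ Finset.range (a + 1),
      (Mcoef e a l j : ℂ) * (FF e z * phi z ^ (a - l) * psi z ^ l))
    (phi z + 256 * psi z) (16 * psi z) (phi z * psi z) ?_ ?_ ?_ ?_ ?_ ?_ a j hj
  · intro a j hj
    have h := UU_rule1 (fun z => FF e z * phi z ^ (a - j) * psi z ^ j) z
    have h1 : (fun z => FF e z * phi z ^ (a + 1 - j) * psi z ^ j) =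
        fun z => FF e z * phi z ^ (a - j) * psi z ^ j * phi z := by
      funext w
      rw [X_phi _ _ _ a j hj]
      ring
    have h2 : (fun z => FF e z * phi z ^ (a + 1 - (j + 1)) * psi z ^ (j + 1)) =
        fun z => FF e z * phi z ^ (a - j) * psi z ^ j * psi z := by
      funext w
      rw [X_psi _ _ _ a j]
      ring
    simp only [h1, h2]
    exact h
  · intro a j hj
    exact v_rule1 e (FF e z) (phi z) (psi z) a j hj
  · intro a j hj
    have h := UU_rule2 (fun z => FF e z * phi z ^ (a - j) * psi z ^ j) z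
    have h1 : (fun z => FF e z * phi z ^ (a + 2 - (j + 2)) * psi z ^ (j + 2)) =
        fun z => FF e z * phi z ^ (a - j) * psi z ^ j * psi z ^ 2 := by
      funext w
      rw [show a + 2 - (j + 2) = a - j by omega]
      ring
    have h2 : (fun z => FF e z * phi z ^ (a + 1 - (j + 1)) * psi z ^ (j + 1)) =
        fun z => FF e z * phi z ^ (a - j) * psi z ^ j * psi z := by
      funext w
      rw [X_psi _ _ _ a j]
      ring
    simp only [h1, h2]
    exact h
  · intro a j hj
    exact v_rule2 e (FF e z) (phi z) (psi z) a j hj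
  · simp only [Nat.sub_self, pow_zero, mul_one, zero_add, Finset.sum_range_one, Mcoef_zero_zero,
      Rat.cast_one, one_mul]
    cases e
    · simp [UU, FF]
    · exact UU_ee z
  · simp only [Nat.sub_self, pow_zero, mul_one, pow_one]
    rw [Finset.sum_range_succ, Finset.sum_range_one, Mcoef_zero_succ, Mcoef_one_one]
    simp only [Rat.cast_zero, zero_mul, zero_add, Nat.sub_self, pow_zero, mul_one, pow_one]
    cases e
    · simp only [FF, cond_false, one_mul]
      have : UU (fun z => psi z) z = 8 * psi z := UU_psi z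
      rw [this]
      push_cast
      ring
    · simp only [FF, cond_true]
      rw [UU_ee_psi z]
      push_cast
      ring

end Pool.Agent.GV.MF
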