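import Pool.Agent.GV.MF.Span1
import Pool.Agent.GV.MF.Indep
import Pool.Agent.GV.MF.Umain

/-!
# GV-MF-Char: the characteristic polynomial of `U_2`

Plan.  By `isCF_iff`, `isCF_basis`, `span0`/`span1`, `indep` there is a basis
`b : Basis (Fin (a-1)) ℂ (CuspForm G02 (4a + 2e))` with `(b i : ℍ → ℂ) = F φ^(a-(i+1)) ψ^(i+1)`
(`Basis.mk`; coercions of sums of cusp forms to functions).  By `UU_main` and
`Mcoef_zero_succ`, `Mcoef_last` (rows `0` and `a` vanish) `T (b j) = ∑_i Mmat i j • b i`, so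
`LinearMap.toMatrix b b T = (Mmat e a).map (algebraMap ℚ ℂ)` and
`LinearMap.charpoly_toMatrix`, `Matrix.charpoly_map`.
-/

open UpperHalfPlane ModularForm CongruenceSubgroup Complex
open scoped MatrixGroups Manifold ModularForm Real Topology

namespace Pool.Agent.GV.MF

private abbrev VV (e : Bool) (a : ℕ) : Type := CuspForm G02 ((4 * a + 2 * e.toNat : ℕ) : ℤ)

private lemma sumIcc (F : ℕ → ℂ) (n : ℕ) :
    ∑ j ∈ Finset.Icc 1 n, F j = ∑ i : Fin n, F ((i : ℕ) + 1) := by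
  rw [Fin.sum_univ_eq_sum_range (fun i => F (i + 1)) n]
  induction n with
  | zero => simp
  | succ n ih => rw [Finset.sum_Icc_succ_top (by omega), Finset.sum_range_succ, ih]

/-- evaluation at a point -/
private noncomputable def evz (e : Bool) (a : ℕ) (z : ℍ) : VV e a →ₗ[ℂ] ℂ where
  toFun f := f z
  map_add' f g := rfl
  map_smul' c f := rfl

private lemma evz_apply (e : Bool) (a : ℕ) (z : ℍ) (f : VV e a) : evz e a z f = f z := rfl

private lemma ext_evz {e : Bool} {a : ℕ} {f g : VV e a} (h : ∀ z, evz e a z f = evz e a z g) :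
    f = g := DFunLike.ext f g h

private lemma exists_bf (e : Bool) (a : ℕ) (i : Fin (a - 1)) : ∃ F : VV e a,
    (F : ℍ → ℂ) = fun z => FF e z * phi z ^ (a - ((i : ℕ) + 1)) * psi z ^ ((i : ℕ) + 1) :=
  (isCF_iff _ _).1 (isCF_basis e a ((i : ℕ) + 1) (by omega) (by have := i.2; omega))

private noncomputable def bf (e : Bool) (a : ℕ) (i : Fin (a - 1)) : VV e a :=
  (exists_bf e a i).choose

private lemma evz_bf (e : Bool) (a : ℕ) (i : Fin (a - 1)) (z : ℍ) : evz e a z (bf e a i) =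
    FF e z * phi z ^ (a - ((i : ℕ) + 1)) * psi z ^ ((i : ℕ) + 1) :=
  congrFun (exists_bf e a i).choose_spec z

private lemma bf_li (e : Bool) (a : ℕ) : LinearIndependent ℂ (bf e a) := by
  rw [Fintype.linearIndependent_iff]
  intro g hg i
  set c : ℕ → ℂ := fun j => if h : j - 1 < a - 1 then g ⟨j - 1, h⟩ else 0 with hc
  have hci : ∀ i : Fin (a - 1), c ((i : ℕ) + 1) = g i := by
    intro i
    have h : (i : ℕ) + 1 - 1 < a - 1 := by have := i.2; omega
    simp only [hc]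
    rw [dif_pos h]
    congr 1
  have h1 := indep e a c (by
    intro z
    rw [sumIcc]
    have h2 := congrArg (evz e a z) hg
    rw [map_sum, map_zero] at h2
    rw [← h2]
    refine Finset.sum_congr rfl fun i _ => ?_
    rw [map_smul, evz_bf, hci, smul_eq_mul])
  have h3 := h1 ((i : ℕ) + 1) (Finset.mem_Icc.2 ⟨by omega, by have := i.2; omega⟩)
  rwa [hci] at h3

private lemma bf_span (e : Bool) (a : ℕ) (ha : 1 ≤ a) :
    ⊤ ≤ Submodule.span ℂ (Set.range (bf e a)) := by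
  intro f _
  have hf : IsCF (4 * a + 2 * e.toNat) (f : ℍ → ℂ) := (isCF_iff _ _).2 ⟨f, rfl⟩
  have hex : ∃ c : ℕ → ℂ, ∀ z, (f : ℍ → ℂ) z =
      ∑ j ∈ Finset.Icc 1 (a - 1), c j * (FF e z * phi z ^ (a - j) * psi z ^ j) := by
    cases e
    · obtain ⟨c, hc⟩ := span0 a ha f (by simpa using hf)
      refine ⟨c, fun z => ?_⟩
      rw [hc z]
      refine Finset.sum_congr rfl fun j _ => ?_
      simp [FF]
    · obtain ⟨c, hc⟩ := span1 a ha f (by simpa using hf)
      exact ⟨c, hc⟩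
  obtain ⟨c, hc⟩ := hex
  have h1 : f = ∑ i : Fin (a - 1), c ((i : ℕ) + 1) • bf e a i := by
    refine ext_evz fun z => ?_
    rw [map_sum, evz_apply, hc z, sumIcc]
    refine Finset.sum_congr rfl fun i _ => ?_
    rw [map_smul, evz_bf, smul_eq_mul]
  rw [h1]
  exact Submodule.sum_mem _ fun i _ =>
    Submodule.smul_mem _ _ (Submodule.subset_span ⟨i, rfl⟩)

/-- the basis -/
private noncomputable def bb (e : Bool) (a : ℕ) (ha : 1 ≤ a) : Module.Basis (Fin (a - 1)) ℂ (VV e a) :=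
  Module.Basis.mk (bf_li e a) (bf_span e a ha)

private lemma bb_apply (e : Bool) (a : ℕ) (ha : 1 ≤ a) (i : Fin (a - 1)) :
    bb e a ha i = bf e a i := Module.Basis.mk_apply _ _ i

theorem finrank_cusp (e : Bool) (a : ℕ) (ha : 1 ≤ a) :
    Module.finrank ℂ (CuspForm G02 ((4 * a + 2 * e.toNat : ℕ) : ℤ)) = a - 1 ∧
    Module.Finite ℂ (CuspForm G02 ((4 * a + 2 * e.toNat : ℕ) : ℤ)) := by
  refine ⟨?_, Module.Finite.of_basis (bb e a ha)⟩
  have := Module.finrank_eq_card_basis (bb e a ha)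
  rwa [Fintype.card_fin] at this

theorem charpoly_T (e : Bool) (a : ℕ) (ha : 1 ≤ a)
    (T : Module.End ℂ (CuspForm G02 ((4 * a + 2 * e.toNat : ℕ) : ℤ)))
    (hT : ∀ (f : CuspForm G02 ((4 * a + 2 * e.toNat : ℕ) : ℤ)) (z : ℍ),
      (T f : ℍ → ℂ) z = UU (f : ℍ → ℂ) z)
    [Module.Finite ℂ (CuspForm G02 ((4 * a + 2 * e.toNat : ℕ) : ℤ))] :
    T.charpoly = (Mmat e a).charpoly.map (algebraMap ℚ ℂ) := by
  have h1 : T = Matrix.toLin (bb e a ha) (bb e a ha) ((Mmat e a).map (algebraMap ℚ ℂ)) := by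
    refine (bb e a ha).ext fun j => ?_
    rw [Matrix.toLin_self, bb_apply]
    refine ext_evz fun z => ?_
    rw [evz_apply, hT, map_sum]
    have h2 : (bf e a j : ℍ → ℂ) =
        fun z => FF e z * phi z ^ (a - ((j : ℕ) + 1)) * psi z ^ ((j : ℕ) + 1) :=
      (exists_bf e a j).choose_spec
    have hj : (j : ℕ) + 1 < a := by have := j.2; omega
    rw [h2, UU_main e a ((j : ℕ) + 1) (by omega) z, Finset.sum_range_succ,
      Mcoef_last e a ((j : ℕ) + 1) hj (by omega)]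
    obtain ⟨m, rfl⟩ : ∃ m, a = m + 1 := ⟨a - 1, by omega⟩
    rw [Finset.sum_range_succ', Mcoef_zero_succ]
    simp only [Rat.cast_zero, zero_mul, add_zero]
    rw [← Fin.sum_univ_eq_sum_range (fun l => ((Mcoef e (m + 1) (l + 1) ((j : ℕ) + 1) : ℚ) : ℂ) *
      (FF e z * phi z ^ (m + 1 - (l + 1)) * psi z ^ (l + 1))) m]
    refine Finset.sum_congr rfl fun i _ => ?_
    rw [map_smul, bb_apply, evz_bf, smul_eq_mul]
    rfl
  have h3 : LinearMap.toMatrix (bb e a ha) (bb e a ha) T = (Mmat e a).map (algebraMap ℚ ℂ) := by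
    rw [h1, LinearMap.toMatrix_toLin]
  rw [← LinearMap.charpoly_toMatrix T (bb e a ha), h3, Matrix.charpoly_map]

end Pool.Agent.GV.MF
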