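import Pool.Agent.GV.MF.Geo

/-!
# GV-MF-Cusp: bundled and unbundled forms

Plan.  Cosets: for `γ : SL(2, ℤ)` either `γ ∈ Γ₀(2)` or `γ = δ S` or `γ = δ S T` with
`δ ∈ Γ₀(2)` (lower left entry `c` odd: `γ T^(-j) S^(-1)` has lower left entry `-(d - j c)`, even for
`j = d mod 2`; here `γ = δ S T^j`, `j ∈ {0, 1}`).
* `weight_zero`: build a `ModularForm G02 0` (`slash_action_eq'` from the invariance with
  `denom^0 = 1`; `bdd_at_cusps'` with `OnePoint.isBoundedAt_iff_forall_SL2Z` (cusps of an arithmetic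
  group are cusps of `SL(2, ℤ)`: `Subgroup.IsArithmetic.isCusp_iff_isCusp_SL2Z`), and the three
  cosets: `h ∣ δ S T^j = (h ∣ S) ∣ T^j`, bounded because `IsBoundedAtImInfty` is invariant
  under `z ↦ z + 1`).  Then `ModularForm.eq_const_of_weight_zero`.
* `isCF_iff`: the same with `IsZeroAt`.  `(f ∣[k] γ) z = f (γ • z) * denom γ z ^ (-k)`
  (`ModularForm.SL_slash_def`), `denom S z = z`.
  Converse direction: `∞` and `S • ∞` are cusps; `zeroS` is `IsZeroAtImInfty (f ∣[k] S)`.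
The elements of `G02` are the images `mapGL ℝ γ` of `γ ∈ Gamma0 2` (`Subgroup.mem_map`).
-/

open UpperHalfPlane ModularForm CongruenceSubgroup Complex
open scoped MatrixGroups Manifold ModularForm Real Topology

namespace Pool.Agent.GV.MF

private lemma cu_cosets (γ : SL(2, ℤ)) : γ ∈ CongruenceSubgroup.Gamma0 2 ∨
    (∃ δ ∈ CongruenceSubgroup.Gamma0 2, γ = δ * ModularGroup.S) ∨
    (∃ δ ∈ CongruenceSubgroup.Gamma0 2, γ = δ * ModularGroup.S * ModularGroup.T) := by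
  have key : ∀ δ : SL(2, ℤ), δ ∈ CongruenceSubgroup.Gamma0 2 ↔ (2 : ℤ) ∣ δ 1 0 := by
    intro δ
    rw [CongruenceSubgroup.Gamma0_mem]
    exact_mod_cast ZMod.intCast_zmod_eq_zero_iff_dvd (δ 1 0) 2
  by_cases hc : (2 : ℤ) ∣ γ 1 0
  · exact Or.inl ((key γ).2 hc)
  · right
    by_cases hd : (2 : ℤ) ∣ γ 1 1
    · left
      refine ⟨γ * ModularGroup.S⁻¹, (key _).2 ?_, by group⟩
      have h1 : (γ * ModularGroup.S⁻¹) 1 0 = - γ 1 1 := by
        simp [ModularGroup.S, Matrix.SpecialLinearGroup.coe_mul, Matrix.mul_apply,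
          Matrix.SpecialLinearGroup.coe_inv, Matrix.adjugate_fin_two]
      rw [h1]
      exact (dvd_neg).2 hd
    · right
      refine ⟨γ * ModularGroup.T⁻¹ * ModularGroup.S⁻¹, (key _).2 ?_, by group⟩
      have h1 : (γ * ModularGroup.T⁻¹ * ModularGroup.S⁻¹) 1 0 = γ 1 0 - γ 1 1 := by
        simp [ModularGroup.S, ModularGroup.T, Matrix.SpecialLinearGroup.coe_mul, Matrix.mul_apply,
          Matrix.SpecialLinearGroup.coe_inv, Matrix.adjugate_fin_two]
        ring
      rw [h1]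
      omega

private lemma cu_inv_iff (k : ℕ) (f : ℍ → ℂ) :
    Inv k f ↔ ∀ γ ∈ CongruenceSubgroup.Gamma0 2, f ∣[(k : ℤ)] γ = f := by
  constructor
  · intro h γ hγ
    funext z
    rw [SL_slash_apply, h γ hγ z, zpow_neg, zpow_natCast, mul_right_comm,
      mul_inv_cancel₀ (pow_ne_zero _ (denom_ne_zero _ z)), one_mul]
  · intro h γ hγ z
    have h1 := congrFun (h γ hγ) z
    rw [SL_slash_apply, zpow_neg, zpow_natCast] at h1
    rw [← h1, mul_comm, mul_assoc, inv_mul_cancel₀ (pow_ne_zero _ (denom_ne_zero _ z)), mul_one]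

private lemma cu_S (k : ℕ) (f : ℍ → ℂ) :
    f ∣[(k : ℤ)] ModularGroup.S = fun z : ℍ => f (siv z) * ((z : ℂ) ^ k)⁻¹ := by
  funext z
  rw [SL_slash_apply, zpow_neg, zpow_natCast, ModularGroup.denom_S]
  rfl

private lemma cu_T10 : ((Matrix.SpecialLinearGroup.mapGL ℝ ModularGroup.T : GL (Fin 2) ℝ) : Matrix (Fin 2) (Fin 2) ℝ) 1 0 = 0 := by
  simp [ModularGroup.T]

private lemma cu_eq' {k : ℕ} {f : ℍ → ℂ} (h : Inv k f) (A : GL (Fin 2) ℝ) (hA : A ∈ G02) :
    f ∣[(k : ℤ)] A = f := by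
  obtain ⟨γ, hγ, rfl⟩ := hA
  exact (cu_inv_iff k f).1 h γ hγ

theorem weight_zero {h : ℍ → ℂ} (hh : MDiff h) (hinv : Inv 0 h) (hb : IsBoundedAtImInfty h)
    (hbS : IsBoundedAtImInfty (fun z => h (siv z))) : ∃ c : ℂ, ∀ z, h z = c := by
  have hbS' : IsBoundedAtImInfty (h ∣[((0 : ℕ) : ℤ)] ModularGroup.S) := by
    rw [cu_S]
    simpa using hbS
  let F : ModularForm G02 ((0 : ℕ) : ℤ) :=
    { toFun := h
      slash_action_eq' := cu_eq' hinv
      holo' := hh
      bdd_at_cusps' := by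
        intro c hc
        rw [Subgroup.IsArithmetic.isCusp_iff_isCusp_SL2Z] at hc
        rw [OnePoint.isBoundedAt_iff_forall_SL2Z hc]
        intro γ _
        rcases cu_cosets γ with h1 | ⟨δ, h1, rfl⟩ | ⟨δ, h1, rfl⟩
        · rw [(cu_inv_iff 0 h).1 hinv γ h1]
          exact hb
        · rw [SlashAction.slash_mul, (cu_inv_iff 0 h).1 hinv δ h1]
          exact hbS'
        · rw [SlashAction.slash_mul, SlashAction.slash_mul, (cu_inv_iff 0 h).1 hinv δ h1]
          exact hbS'.slash _ cu_T10 }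
  obtain ⟨c, hc⟩ := ModularForm.eq_const_of_weight_zero F
  exact ⟨c, fun z => congrFun hc z⟩

theorem isCF_iff (k : ℕ) (f : ℍ → ℂ) :
    IsCF k f ↔ ∃ F : CuspForm G02 (k : ℤ), (F : ℍ → ℂ) = f := by
  constructor
  · intro h
    have hS : IsZeroAtImInfty (f ∣[(k : ℤ)] ModularGroup.S) := by
      rw [cu_S]
      exact h.zeroS
    refine ⟨{ toFun := f
              slash_action_eq' := cu_eq' h.inv
              holo' := h.mdiff
              zero_at_cusps' := ?_ }, rfl⟩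
    intro c hc
    rw [Subgroup.IsArithmetic.isCusp_iff_isCusp_SL2Z] at hc
    rw [OnePoint.isZeroAt_iff_forall_SL2Z hc]
    intro γ _
    rcases cu_cosets γ with h1 | ⟨δ, h1, rfl⟩ | ⟨δ, h1, rfl⟩
    · rw [(cu_inv_iff k f).1 h.inv γ h1]
      exact h.zero
    · rw [SlashAction.slash_mul, (cu_inv_iff k f).1 h.inv δ h1]
      exact hS
    · rw [SlashAction.slash_mul, SlashAction.slash_mul, (cu_inv_iff k f).1 h.inv δ h1]
      exact hS.slash _ cu_T10
  · rintro ⟨F, rfl⟩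
    refine ⟨F.holo', ?_, ?_, ?_⟩
    · rw [cu_inv_iff]
      intro γ hγ
      exact F.slash_action_eq' _ ⟨γ, hγ, rfl⟩
    · exact CuspFormClass.zero_at_infty F
    · rw [← cu_S]
      exact CuspFormClass.zero_at_infty_slash F ModularGroup.S

end Pool.Agent.GV.MF
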