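import Pool.Agent.GV.Basic

/-!
# GV-MF definitions: modular forms for `Γ₀(2)`

All functions are plain functions `ℍ → ℂ`.
`dbl z = 2 z`, `hlf0 z = z / 2`, `hlf1 z = (z + 1) / 2`, `shf z = z + 1`, `siv z = -1 / z`.
`UU F z = (F (z/2) + F ((z+1)/2)) / 2` is `U_2`.
`phi = (16 E_4(2z) - E_4(z)) / 15`, `psi = (E_4(z) - E_4(2z)) / 240` (weight 4),
`ee = 2 E_2(2z) - E_2(z)` (weight 2).
-/

open UpperHalfPlane ModularForm CongruenceSubgroup Complex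
open scoped MatrixGroups Manifold ModularForm Real Topology

namespace Pool.Agent.GV.MF

/-- `z ↦ 2 z` -/
noncomputable def dbl (z : ℍ) : ℍ :=
  ⟨2 * (z : ℂ), by have := z.im_pos; simpa using this⟩

/-- `z ↦ z / 2` -/
noncomputable def hlf0 (z : ℍ) : ℍ :=
  ⟨(z : ℂ) / 2, by have := z.im_pos; simpa using this⟩

/-- `z ↦ (z + 1) / 2` -/
noncomputable def hlf1 (z : ℍ) : ℍ :=
  ⟨((z : ℂ) + 1) / 2, by have := z.im_pos; simpa using this⟩

/-- `z ↦ z + 1` -/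
noncomputable def shf (z : ℍ) : ℍ :=
  ⟨(z : ℂ) + 1, by have := z.im_pos; simpa using this⟩

/-- `z ↦ -1 / z` -/
noncomputable def siv (z : ℍ) : ℍ := ModularGroup.S • z

/-- functions of period one -/
def Per (F : ℍ → ℂ) : Prop := ∀ z, F (shf z) = F z

/-- `U_2` -/
noncomputable def UU (F : ℍ → ℂ) (z : ℍ) : ℂ := (F (hlf0 z) + F (hlf1 z)) / 2

/-- `q = exp (2 π i z)` -/
noncomputable def qq (z : ℍ) : ℂ := Complex.exp (2 * π * Complex.I * z)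

/-- `E_4` -/
noncomputable def e4 (z : ℍ) : ℂ := ModularForm.E₄ z

/-- `φ = (16 E_4(2z) - E_4(z)) / 15` -/
noncomputable def phi (z : ℍ) : ℂ := (16 * e4 (dbl z) - e4 z) / 15

/-- `ψ = (E_4(z) - E_4(2z)) / 240` -/
noncomputable def psi (z : ℍ) : ℂ := (e4 z - e4 (dbl z)) / 240

/-- `E = 2 E_2(2z) - E_2(z)` -/
noncomputable def ee (z : ℍ) : ℂ := 2 * EisensteinSeries.E2 (dbl z) - EisensteinSeries.E2 z

/-- `F_0 = 1`, `F_1 = E` -/
noncomputable def FF (e : Bool) (z : ℍ) : ℂ := bif e then ee z else 1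

/-- the group `Γ₀(2)` -/
abbrev G02 : Subgroup (GL (Fin 2) ℝ) :=
  ((CongruenceSubgroup.Gamma0 2 : Subgroup SL(2, ℤ)) : Subgroup (GL (Fin 2) ℝ))

/-- `f` transforms with weight `k` under `Γ₀(2)` -/
def Inv (k : ℕ) (f : ℍ → ℂ) : Prop :=
  ∀ γ ∈ CongruenceSubgroup.Gamma0 2, ∀ z : ℍ, f (γ • z) = UpperHalfPlane.denom γ z ^ k * f z

/-- `f` is (the function of) a cusp form of weight `k` for `Γ₀(2)`, unbundled -/
structure IsCF (k : ℕ) (f : ℍ → ℂ) : Prop where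
  mdiff : MDiff f
  inv : Inv k f
  zero : IsZeroAtImInfty f
  zeroS : IsZeroAtImInfty (fun z : ℍ => f (siv z) * ((z : ℂ) ^ k)⁻¹)

end Pool.Agent.GV.MF
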