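import Pool.Agent.GV.MF.FG
import Pool.Agent.GV.MF.Cusp

/-!
# GV-MF-Del: `Δ = φ² ψ`, `Δ(2z) = φ ψ²`, and `φ`, `ψ` have no zeros

Plan.  `h = φ² ψ / Δ` (`Δ = ModularForm.discriminant`, `discriminant_ne_zero`,
`discriminant_T_invariant`, `discriminant_S_invariant`; `Δ (γ • z) = denom^12 Δ z` for all `γ` since it is the
`CuspForm 𝒮ℒ 12` `CuspForm.discriminant`).
At `i∞`: `ψ / q → 1` (`psi_tendsto_q`), `φ → 1`, `Δ / q = ∏ (1 - q^n)^24 → 1`
(`discriminant_eq_q_prod`, `tendsto_atImInfty_tprod_one_sub_eta_q_pow`), so `h → 1`.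
At `0`: `h (siv z) = (16 z^4 ψ(z/2))² (z^4 φ(z/2)/256) / (z^12 Δ z) = φ(z/2) ψ(z/2)² / Δ z` and
`ψ(z/2)² / q(z) = (ψ(z/2)/q(z/2))² → 1`: bounded.
`weight_zero` (file Cusp): `h` is constant, and equals its limit `1`.
`del_two`: evaluate `Δ = φ² ψ` at `siv (dbl z)`: `Δ(-1/(2z)) = (2z)^12 Δ(2z)`,
`φ(-1/(2z)) = 16 (2z)^4 ψ(z)`, `ψ(-1/(2z)) = (2z)^4 φ(z)/256` (`phi_siv`, `psi_siv` at `dbl z`,
`hlf0 (dbl z) = z`).
-/

open UpperHalfPlane ModularForm CongruenceSubgroup Complex
open scoped MatrixGroups Manifold ModularForm Real Topology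

namespace Pool.Agent.GV.MF

private lemma md_inv (γ : SL(2, ℤ)) (z : ℍ) : ModularForm.discriminant (γ • z) =
    UpperHalfPlane.denom γ z ^ 12 * ModularForm.discriminant z := by
  have h := SlashInvariantForm.slash_action_generators_SL2Z discriminant_S_invariant discriminant_T_invariant γ
  have h1 := congrFun h z
  rw [SL_slash_apply] at h1
  have h0 : UpperHalfPlane.denom γ z ≠ 0 := UpperHalfPlane.denom_ne_zero γ z
  rw [← h1]
  have e : UpperHalfPlane.denom γ z ^ (-12 : ℤ) = (UpperHalfPlane.denom γ z ^ 12)⁻¹ := by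
    rw [zpow_neg]
    norm_cast
  rw [e]
  field_simp

private lemma md_siv (z : ℍ) : ModularForm.discriminant (siv z) =
    (z : ℂ) ^ 12 * ModularForm.discriminant z := by
  have h := md_inv ModularGroup.S z
  rw [ModularGroup.denom_S] at h
  exact h

private lemma md_qq (z : ℍ) : qq z ≠ 0 := Complex.exp_ne_zero _

private lemma md_tq : Filter.Tendsto (fun z => ModularForm.discriminant z / qq z) atImInfty
    (𝓝 1) := by
  refine tendsto_atImInfty_tprod_one_sub_eta_q_pow.congr fun z => ?_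
  rw [discriminant_eq_q_prod]
  have e : Function.Periodic.qParam 1 (z : ℂ) = qq z := by
    simp [Function.Periodic.qParam, qq]
  rw [e, mul_comm, mul_div_assoc, div_self (md_qq z), mul_one]

private lemma md_hlf (z : ℍ) : qq (hlf0 z) ^ 2 = qq z := by
  unfold qq
  rw [← Complex.exp_nat_mul]
  congr 1
  rw [coe_hlf0]
  push_cast
  ring

private lemma md_mdiff : MDiff (fun z => phi z ^ 2 * psi z / ModularForm.discriminant z) := by
  have h1 := phi_mdiff
  have h2 := psi_mdiff
  have h3 : MDiff (ModularForm.discriminant) := CuspForm.discriminant.holo'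
  rw [UpperHalfPlane.mdifferentiable_iff] at h1 h2 h3 ⊢
  refine ((h1.pow 2).mul h2).div h3 ?_
  intro z _
  exact discriminant_ne_zero _

private lemma md_h (z : ℍ) :
    phi (siv z) ^ 2 * psi (siv z) / ModularForm.discriminant (siv z) =
      (psi (hlf0 z) / qq (hlf0 z)) ^ 2 * phi (hlf0 z) * (ModularForm.discriminant z / qq z)⁻¹ := by
  rw [phi_siv, psi_siv, md_siv, ← md_hlf z]
  have hz : (z : ℂ) ≠ 0 := z.ne_zero
  have h0 := discriminant_ne_zero z
  have h1 := md_qq (hlf0 z)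
  field_simp
  ring

private lemma md_const : ∃ c : ℂ, ∀ z,
    phi z ^ 2 * psi z / ModularForm.discriminant z = c := by
  refine weight_zero md_mdiff ?_ ?_ ?_
  · intro γ hγ z
    have h0 : UpperHalfPlane.denom γ z ≠ 0 := UpperHalfPlane.denom_ne_zero γ z
    have h1 := discriminant_ne_zero z
    show phi (γ • z) ^ 2 * psi (γ • z) / ModularForm.discriminant (γ • z) = _
    rw [phi_inv γ hγ z, psi_inv γ hγ z, md_inv]
    field_simp
  · have h := ((phi_tendsto.pow 2).mul psi_tendsto_q).div md_tq one_ne_zero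
    refine Filter.Tendsto.isBigO_one ℝ (c := (1 ^ 2 * 1 / 1 : ℂ)) (h.congr fun z => ?_)
    have h1 := discriminant_ne_zero z
    have h2 := md_qq z
    simp only [Pi.mul_apply, Pi.div_apply]
    field_simp
  · have h := (((psi_tendsto_q.comp tendsto_hlf0).pow 2).mul (phi_tendsto.comp tendsto_hlf0)).mul
      (md_tq.inv₀ one_ne_zero)
    refine Filter.Tendsto.isBigO_one ℝ (c := (1 ^ 2 * 1 * 1⁻¹ : ℂ)) (h.congr fun z => ?_)
    rw [md_h]
    rfl

theorem del_one (z : ℍ) : ModularForm.discriminant z = phi z ^ 2 * psi z := by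
  obtain ⟨c, hc⟩ := md_const
  have h := ((phi_tendsto.pow 2).mul psi_tendsto_q).div md_tq one_ne_zero
  have h2 : Filter.Tendsto (fun _ : ℍ => c) atImInfty (𝓝 (1 ^ 2 * 1 / 1 : ℂ)) := by
    refine h.congr fun z => ?_
    have h1 := discriminant_ne_zero z
    have h2 := md_qq z
    rw [← hc z]
    simp only [Pi.mul_apply, Pi.div_apply]
    field_simp
  have h3 : c = 1 := by
    have h4 := tendsto_nhds_unique h2 tendsto_const_nhds
    rw [← h4]
    norm_num
  have h4 := hc z
  rw [h3, div_eq_one_iff_eq (discriminant_ne_zero z)] at h4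
  exact h4.symm

theorem del_two (z : ℍ) : ModularForm.discriminant (dbl z) = phi z * psi z ^ 2 := by
  have h := del_one (siv (dbl z))
  rw [md_siv, phi_siv, psi_siv, hlf0_dbl, coe_dbl] at h
  have hz : (z : ℂ) ≠ 0 := z.ne_zero
  have h12 : (2 * (z : ℂ)) ^ 12 ≠ 0 := pow_ne_zero _ (mul_ne_zero two_ne_zero hz)
  apply mul_left_cancel₀ h12
  rw [h]
  ring

theorem phi_ne_zero (z : ℍ) : phi z ≠ 0 := by
  intro h
  apply discriminant_ne_zero z
  rw [del_one, h]
  ring

theorem psi_ne_zero (z : ℍ) : psi z ≠ 0 := by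
  intro h
  apply discriminant_ne_zero z
  rw [del_one, h]
  ring

end Pool.Agent.GV.MF
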