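import Pool.Agent.GV.MF.UUr

/-!
# GV-MF-E4m: properties of `E_4`

Plan.  `e4 z = E₄ z` with `E₄ = ModularForm.E : ModularForm 𝒮ℒ 4` in Mathlib.
`e4_hasSum`: `EisensteinSeries.q_expansion_bernoulli` (or `EisensteinSeries.E_qExpansion_coeff`
with `ModularFormClass.hasSum_qExpansion`) with `bernoulli 4 = -1/30`.
`UU_e4`: `UU_hasSum` and `σ 3 (2n) = 9 σ 3 n - 8 σ 3 (n/2)` (`σ 3` of `2n`: write `n = 2^r m`, `m` odd;
or for `n` odd by multiplicativity `σ 3 (2n) = 9 σ 3 n`, for `n` even
`σ 3 (2 n) + 8 σ 3 (n / 2) = 9 σ 3 n`: prove it for prime powers of two times odd), together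
with the expansion of `e4 (dbl z)`: `∑ a_n q^(2n)`.  A neat direct proof of the divisor identity:
divisors of `2n` = (divisors of `n`) ∪ (2 * divisors of `n`), with intersection
`2 * divisors of (n/2)` (empty when `n` odd): `σ(2n) = σ(n) + 8 σ(n) - 8 σ(n/2)`.
`e4_tendsto_q`: `(e4 z - 1) / q → 240`: from the expansion; e.g. `UpperHalfPlane.cuspFunction`
is analytic at `0`, or bound the tail `∑_{n ≥ 2}` by `C |q|^2`.
`e4_slash`: `SlashInvariantForm.slash_action_eqn` / `SlashInvariantForm.slash_action_eqn'` or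
`SlashInvariantForm.slash_action_eqn_SL''` for `𝒮ℒ`.
-/

open UpperHalfPlane ModularForm CongruenceSubgroup Complex
open scoped MatrixGroups Manifold ModularForm Real Topology

namespace Pool.Agent.GV.MF

/-- the coefficients of `E_4` -/
noncomputable def a4 (n : ℕ) : ℂ := if n = 0 then 1 else 240 * (ArithmeticFunction.sigma 3 n : ℂ)

private lemma qParam_eq (z : ℍ) : Function.Periodic.qParam 1 (z : ℂ) = qq z := by
  unfold Function.Periodic.qParam qq
  simp

lemma e4_hasSum (z : ℍ) : HasSum (fun n => a4 n * qq z ^ n) (e4 z) := by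
  have h1 := ModularForm.hasSum_qExpansion (f := E₄) (h := 1) one_pos one_mem_strictPeriods_SL z
  rw [qParam_eq] at h1
  have h2 : (fun m => (qExpansion 1 (E₄ : ℍ → ℂ)).coeff m * qq z ^ m) =
      fun n => a4 n * qq z ^ n := by
    funext n
    congr 1
    rw [EisensteinSeries.E_qExpansion_coeff (by norm_num) (by decide) n]
    unfold a4
    split_ifs with h
    · rfl
    · have hb : bernoulli 4 = -1 / 30 := by decide +kernel
      rw [hb]
      norm_num
  rw [h2] at h1
  exact h1

lemma e4_mdiff : MDiff e4 := E₄.holo'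

lemma e4_slash (γ : SL(2, ℤ)) (z : ℍ) :
    e4 (γ • z) = UpperHalfPlane.denom γ z ^ 4 * e4 z := by
  have hγ : (γ : GL (Fin 2) ℝ) ∈ 𝒮ℒ := MonoidHom.mem_range.2 ⟨γ, rfl⟩
  have h := SlashInvariantForm.slash_action_eqn'' (Γ := 𝒮ℒ) (E₄ : ModularForm 𝒮ℒ 4) hγ z
  exact h

lemma e4_per : Per e4 := by
  intro z
  rw [shf_eq_T, e4_slash]
  have : UpperHalfPlane.denom (ModularGroup.T : SL(2, ℤ)) z = 1 := by
    rw [ModularGroup.denom_apply]
    simp [ModularGroup.T]
  rw [this]
  ring

lemma e4_siv (z : ℍ) : e4 (siv z) = (z : ℂ) ^ 4 * e4 z := by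
  unfold siv
  rw [e4_slash, ModularGroup.denom_S]

private lemma qq_tendsto : Filter.Tendsto qq atImInfty (𝓝 0) := by
  have h := UpperHalfPlane.qParam_tendsto_atImInfty (h := 1) one_pos
  refine h.congr ?_
  intro z
  exact qParam_eq z

private lemma qq_ne (z : ℍ) : qq z ≠ 0 := Complex.exp_ne_zero _

private lemma cusp_ps : HasFPowerSeriesOnBall (cuspFunction 1 e4) (.ofScalars ℂ a4) 0 1 := by
  refine hasFPowerSeriesOnBall_cuspFunction one_pos ?_ ?_
  · exact ModularFormClass.analyticAt_cuspFunction_zero (E₄ : ModularForm 𝒮ℒ 4) one_pos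
      one_mem_strictPeriods_SL
  · intro z
    rw [qParam_eq]
    exact e4_hasSum z

private lemma cusp_zero : cuspFunction 1 e4 0 = 1 := by
  have h := cusp_ps.hasFPowerSeriesAt.coeff_zero (fun _ => 0)
  rw [← h]
  simp [a4]

private lemma cusp_deriv : HasDerivAt (cuspFunction 1 e4) 240 0 := by
  have h := cusp_ps.hasFPowerSeriesAt.hasDerivAt
  have h2 : (FormalMultilinearSeries.ofScalars ℂ a4 1 : ContinuousMultilinearMap ℂ _ ℂ)
      (fun _ => (1 : ℂ)) = 240 := by
    simp [a4]
  rwa [h2] at h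

private lemma cusp_qq (z : ℍ) : cuspFunction 1 e4 (qq z) = e4 z := by
  rw [← qParam_eq]
  exact SlashInvariantFormClass.eq_cuspFunction (E₄ : ModularForm 𝒮ℒ 4) z
    one_mem_strictPeriods_SL one_ne_zero

lemma e4_tendsto : Filter.Tendsto e4 atImInfty (𝓝 1) := by
  have h1 := cusp_deriv.continuousAt.tendsto.comp qq_tendsto
  rw [cusp_zero] at h1
  exact h1.congr fun z => cusp_qq z

lemma e4_tendsto_q : Filter.Tendsto (fun z => (e4 z - 1) / qq z) atImInfty (𝓝 240) := by
  have h1 := hasDerivAt_iff_tendsto_slope.1 cusp_deriv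
  have h2 : Filter.Tendsto qq atImInfty (𝓝[≠] 0) :=
    tendsto_nhdsWithin_iff.2 ⟨qq_tendsto, Filter.Eventually.of_forall fun z => qq_ne z⟩
  refine (h1.comp h2).congr ?_
  intro z
  rw [Function.comp_apply, slope_def_field, cusp_qq, cusp_zero, sub_zero]

private lemma sum8 (r : ℕ) : ArithmeticFunction.sigma 3 (2 ^ (r + 1)) =
    ArithmeticFunction.sigma 3 (2 ^ r) + 8 ^ (r + 1) := by
  rw [ArithmeticFunction.sigma_apply_prime_pow Nat.prime_two,
    ArithmeticFunction.sigma_apply_prime_pow Nat.prime_two, Finset.sum_range_succ]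
  congr 1
  rw [mul_comm, pow_mul]
  norm_num

private lemma sig_mul (r m : ℕ) (hm : Odd m) : ArithmeticFunction.sigma 3 (2 ^ r * m) =
    ArithmeticFunction.sigma 3 (2 ^ r) * ArithmeticFunction.sigma 3 m := by
  apply ArithmeticFunction.isMultiplicative_sigma.map_mul_of_coprime
  exact Nat.Coprime.pow_left r (Nat.coprime_two_left.2 hm)

private lemma sig_odd (n : ℕ) (hn : Odd n) : ArithmeticFunction.sigma 3 (2 * n) =
    9 * ArithmeticFunction.sigma 3 n := by
  have h := sig_mul 1 n hn
  rw [pow_one] at h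
  rw [h]
  congr 1

private lemma sig_even (k : ℕ) (hk : k ≠ 0) : ArithmeticFunction.sigma 3 (2 * (2 * k)) +
    8 * ArithmeticFunction.sigma 3 k = 9 * ArithmeticFunction.sigma 3 (2 * k) := by
  obtain ⟨r, m, hm, rfl⟩ := Nat.exists_eq_two_pow_mul_odd hk
  have e1 : 2 * (2 * (2 ^ r * m)) = 2 ^ (r + 1 + 1) * m := by ring
  have e2 : 2 * (2 ^ r * m) = 2 ^ (r + 1) * m := by ring
  rw [e1, e2, sig_mul _ _ hm, sig_mul _ _ hm, sig_mul _ _ hm, sum8 (r + 1), sum8 r]
  ring

private lemma e4_coeff (n : ℕ) (q : ℂ) : a4 (2 * n) * q ^ n =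
    9 * (a4 n * q ^ n) - (if n % 2 = 0 then 8 * (a4 (n / 2) * q ^ n) else 0) := by
  rcases Nat.even_or_odd n with he | ho
  · obtain ⟨k, rfl⟩ := he
    have e1 : (k + k) % 2 = 0 := by omega
    have e2 : (k + k) / 2 = k := by omega
    rw [if_pos e1, e2]
    have e3 : k + k = 2 * k := by ring
    rw [e3]
    have e4' : a4 (2 * (2 * k)) = 9 * a4 (2 * k) - 8 * a4 k := by
      unfold a4
      by_cases hk : k = 0
      · subst hk
        norm_num
      · rw [if_neg (by omega), if_neg (by omega), if_neg hk]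
        have := sig_even k hk
        have h' : (ArithmeticFunction.sigma 3 (2 * (2 * k)) : ℂ) +
            8 * (ArithmeticFunction.sigma 3 k : ℂ) = 9 * (ArithmeticFunction.sigma 3 (2 * k) : ℂ) := by
          exact_mod_cast this
        linear_combination 240 * h'
    rw [e4']
    ring
  · have e1 : n % 2 ≠ 0 := by
      have := Nat.odd_iff.1 ho
      omega
    rw [if_neg e1]
    have e4' : a4 (2 * n) = 9 * a4 n := by
      unfold a4
      rw [if_neg (by omega), if_neg (by omega)]
      have := sig_odd n ho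
      have h' : (ArithmeticFunction.sigma 3 (2 * n) : ℂ) =
          9 * (ArithmeticFunction.sigma 3 n : ℂ) := by
        exact_mod_cast this
      rw [h']
      ring
    rw [e4']
    ring

lemma UU_e4 (z : ℍ) : UU e4 z = 9 * e4 z - 8 * e4 (dbl z) := by
  have h1 := UU_hasSum e4_hasSum z
  have h2 := (e4_hasSum z).mul_left 9
  have h3 := (e4_hasSum (dbl z)).mul_left 8
  have hq : qq (dbl z) = qq z ^ 2 := by
    unfold qq
    rw [coe_dbl, ← Complex.exp_nat_mul]
    congr 1
    push_cast
    ring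
  let b : ℕ → ℂ := fun n => if n % 2 = 0 then 8 * (a4 (n / 2) * qq z ^ n) else 0
  have h4 : HasSum b (8 * e4 (dbl z)) := by
    have hinj : Function.Injective (fun n : ℕ => 2 * n) := fun a b h => by
      simpa using h
    rw [← hinj.hasSum_iff]
    · have h6 : b ∘ (fun n : ℕ => 2 * n) = fun i => 8 * (a4 i * qq (dbl z) ^ i) := by
        funext n
        simp only [Function.comp_apply, b]
        rw [if_pos (by omega), hq, ← pow_mul]
        have h7 : 2 * n / 2 = n := by omega
        rw [h7]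
      rw [h6]
      exact h3
    · intro n hn
      have : n % 2 ≠ 0 := by
        intro h0
        exact hn ⟨n / 2, by simp only; omega⟩
      simp only [b, if_neg this]
  have h5 := h2.sub h4
  have h6 : (fun n => a4 (2 * n) * qq z ^ n) = fun n => 9 * (a4 n * qq z ^ n) - b n := by
    funext n
    exact e4_coeff n (qq z)
  rw [h6] at h1
  exact h1.unique h5

end Pool.Agent.GV.MF
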