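import Pool.Agent.GV.MF.Del
import Pool.Agent.GV.MF.E2m

/-!
# GV-MF-Esq: `E² = φ + 64 ψ`

Plan.  `f = ee² - φ - 64 ψ`, `h = f / ψ` (`psi_ne_zero`), `Inv 0 h`.
At `i∞`: `f → 0`; we need `h` bounded: `ee² - φ = O(q)`: `(ee - 1)/q` is bounded and `(φ - 1)/q` is
bounded.  For `ee`: it is periodic, holomorphic, `→ 1`; `ee - 1 = O(exp(-2π im z))`
(`Function.Periodic` / `UpperHalfPlane.IsZeroAtImInfty.exp_decay_atImInfty`-type lemmas in
Mathlib/NumberTheory/ModularForms/QExpansion.lean, `exp_decay_sub_atImInfty`), the same for `φ`,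
and `ψ ~ q` (`psi_tendsto_q`).
At `0`: `f (siv z) = z^4 (ee(z/2)²/4 - 16 ψ(z/2) - φ(z/2)/4) = z^4 f(z/2)/4`, and
`h (siv z) = 64 f(z/2) / φ(z/2) → 0`.
`weight_zero`: `h` is a constant `c`; its limit along `siv` is `0`, so `h = 0`.
-/

open UpperHalfPlane ModularForm CongruenceSubgroup Complex
open scoped MatrixGroups Manifold ModularForm Real Topology

namespace Pool.Agent.GV.MF

private noncomputable def ff (z : ℍ) : ℂ := ee z ^ 2 - phi z - 64 * psi z

private noncomputable def hh (z : ℍ) : ℂ := ff z / psi z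

private lemma ff_mdiff : MDiff ff := by
  have h1 := UpperHalfPlane.mdifferentiable_iff.1 ee_mdiff
  have h2 := UpperHalfPlane.mdifferentiable_iff.1 phi_mdiff
  have h3 := UpperHalfPlane.mdifferentiable_iff.1 psi_mdiff
  rw [UpperHalfPlane.mdifferentiable_iff]
  exact ((h1.pow 2).sub h2).sub (h3.const_mul 64)

private lemma hh_mdiff : MDiff hh := by
  have h1 := UpperHalfPlane.mdifferentiable_iff.1 ff_mdiff
  have h3 := UpperHalfPlane.mdifferentiable_iff.1 psi_mdiff
  rw [UpperHalfPlane.mdifferentiable_iff]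
  exact h1.div h3 (fun z _ => psi_ne_zero _)

private lemma ff_per : Per ff := by
  intro z
  unfold ff
  rw [ee_per, phi_per, psi_per]

private lemma ff_tendsto : Filter.Tendsto ff atImInfty (𝓝 0) := by
  have h := ((ee_tendsto.pow 2).sub phi_tendsto).sub (psi_tendsto.const_mul 64)
  have h0 : (1 : ℂ) ^ 2 - 1 - 64 * 0 = 0 := by norm_num
  rw [h0] at h
  exact h

private lemma norm_qq (z : ℍ) : ‖qq z‖ = Real.exp (-2 * π * z.im / 1) := by
  unfold qq
  rw [Complex.norm_exp]
  congr 1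
  simp

private lemma hh_bdd : IsBoundedAtImInfty hh := by
  have h0 : IsBoundedAtImInfty ff := ff_tendsto.isBigO_one ℝ
  have h1 : ff =O[atImInfty] fun τ : ℍ ↦ Real.exp (-2 * π * τ.im / 1) :=
    UpperHalfPlane.IsZeroAtImInfty.exp_decay_atImInfty (f := ff) ff_tendsto one_pos
      (per_comp_ofComplex ff_per) ff_mdiff h0
  have h2 : (fun τ : ℍ ↦ Real.exp (-2 * π * τ.im / 1)) =O[atImInfty] qq := by
    refine Asymptotics.isBigO_of_le _ fun z => ?_
    rw [norm_qq, Real.norm_eq_abs, abs_of_pos (Real.exp_pos _)]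
  have h3 : hh =O[atImInfty] fun z => qq z * (psi z)⁻¹ := by
    have h4 := (h1.trans h2).mul (Asymptotics.isBigO_refl (fun z => (psi z)⁻¹) atImInfty)
    refine h4.congr_left fun z => ?_
    rw [hh, div_eq_mul_inv]
  have h5 : Filter.Tendsto (fun z => qq z * (psi z)⁻¹) atImInfty (𝓝 1) := by
    have h6 := psi_tendsto_q.inv₀ one_ne_zero
    rw [inv_one] at h6
    refine h6.congr fun z => ?_
    rw [inv_div, div_eq_mul_inv]
  exact h3.trans (h5.isBigO_one ℝ)

private lemma hh_inv : Inv 0 hh := by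
  intro γ hγ z
  unfold hh ff
  rw [ee_inv γ hγ z, phi_inv γ hγ z, psi_inv γ hγ z]
  have hd : UpperHalfPlane.denom γ z ≠ 0 := UpperHalfPlane.denom_ne_zero _ _
  have hp := psi_ne_zero z
  field_simp

private lemma hh_siv (z : ℍ) : hh (siv z) = 64 * ff (hlf0 z) / phi (hlf0 z) := by
  unfold hh ff
  rw [ee_siv, phi_siv, psi_siv]
  have hz : (z : ℂ) ≠ 0 := UpperHalfPlane.ne_zero z
  have hp := phi_ne_zero (hlf0 z)
  field_simp
  ring

private lemma hh_siv_tendsto : Filter.Tendsto (fun z => hh (siv z)) atImInfty (𝓝 0) := by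
  have h1 : Filter.Tendsto (fun z => 64 * ff (hlf0 z) / phi (hlf0 z)) atImInfty (𝓝 (64 * 0 / 1)) :=
    ((ff_tendsto.comp tendsto_hlf0).const_mul 64).div (phi_tendsto.comp tendsto_hlf0) one_ne_zero
  have h0 : (64 : ℂ) * 0 / 1 = 0 := by norm_num
  rw [h0] at h1
  exact h1.congr fun z => (hh_siv z).symm

theorem ee_sq (z : ℍ) : ee z ^ 2 = phi z + 64 * psi z := by
  obtain ⟨c, hc⟩ := weight_zero hh_mdiff hh_inv hh_bdd (hh_siv_tendsto.isBigO_one ℝ)
  have h1 : c = 0 := by
    have h2 : Filter.Tendsto (fun _ : ℍ => c) atImInfty (𝓝 0) :=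
      hh_siv_tendsto.congr fun z => hc _
    exact tendsto_nhds_unique tendsto_const_nhds h2
  have h3 : ff z = 0 := by
    have h4 := hc z
    rw [h1, hh, div_eq_zero_iff] at h4
    exact h4.resolve_right (psi_ne_zero z)
  unfold ff at h3
  linear_combination h3

end Pool.Agent.GV.MF
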