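import Pool.Agent.GV.MF.ModEq
import Pool.Agent.GV.MF.Esq

/-!
# GV-MF-Edb: `E (φ + φ2) = 2 E(2z) (2 φ2 - φ)` and `U_2 (E ψ) = 32 E ψ`

Write `φ2 = φ(2z)`, `ψ2 = ψ(2z)`.
Plan.  From `mod_lin`: `16 ψ = φ2 + 256 ψ2 - φ`; from `mod_eq`:
`(φ - φ2)² = 256 φ ψ2` (indeed `φ - φ2 = 16 (16 ψ2 - ψ)`, `(16 ψ2 - ψ)² = ψ² - 32 ψ ψ2 + 256 ψ2²
 = ψ2 (16 ψ + φ2 - 32 ψ + 256 ψ2) = ψ2 (φ2 + 256 ψ2 - 16 ψ) = ψ2 φ`).
`ee_sq` at `z`: `E² = φ + 64 ψ = 4 φ2 + 1024 ψ2 - 3 φ`, so `E² φ = (2 φ2 - φ)²`;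
`ee_sq` at `dbl z`: `4 E(2z)² φ = 4 φ φ2 + 256 φ ψ2 = (φ + φ2)²`.
Hence `(E (φ + φ2))² = (2 E(2z) (2 φ2 - φ))²` (multiply: `E² (φ+φ2)² = 4 E² E(2z)² φ`), i.e.
`(A - B)(A + B) = 0`, both holomorphic; `A + B → 2 + 2 = 4` at `i∞`, so `A = B`
(`UpperHalfPlane.mul_eq_zero_iff`).
`UU_ee_psi`: apply `UU` to `E φ + E φ2 = 4 E(2z) φ2 - 2 E(2z) φ`:
`UU(E φ) + φ E = 4 E φ - 2 E UU(φ)` (`UU_mul_dbl`, `UU_ee`), and
`UU φ = φ + 128 ψ` (`UU_rule1` with `F = 1`, `UU 1 = 1`, `UU_psi`): `UU(E φ) = E φ - 256 E ψ`.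
Then `UU_rule1` with `F = ee`: `UU(Eφ) + 16 UU(Eψ) = (φ + 256 ψ) E`.
-/

open UpperHalfPlane ModularForm CongruenceSubgroup Complex
open scoped MatrixGroups Manifold ModularForm Real Topology

namespace Pool.Agent.GV.MF

private lemma edb_alg (E E2 p s p2 s2 : ℂ) (h1 : p + 16 * s = p2 + 256 * s2)
    (h2 : s ^ 2 = s2 * (16 * s + p2)) (h3 : E ^ 2 = p + 64 * s) (h4 : E2 ^ 2 = p2 + 64 * s2) :
    (E * (p + p2) - 2 * E2 * (2 * p2 - p)) * (E * (p + p2) + 2 * E2 * (2 * p2 - p)) = 0 := by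
  have h5 : p = p2 + 256 * s2 - 16 * s := by linear_combination h1
  subst h5
  linear_combination ((p2 + 256 * s2 - 16 * s) + p2) ^ 2 * h3 -
    4 * (2 * p2 - (p2 + 256 * s2 - 16 * s)) ^ 2 * h4 +
    4 * (3072 * s - 960 * p2 - 49152 * s2) * h2

theorem ee_dbl (z : ℍ) :
    ee z * (phi z + phi (dbl z)) = 2 * ee (dbl z) * (2 * phi (dbl z) - phi z) := by
  have m1 : MDiff (fun z => ee z * (phi z + phi (dbl z))) :=
    ee_mdiff.mul (phi_mdiff.add (mdiff_dbl phi_mdiff))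
  have m2 : MDiff (fun z => 2 * ee (dbl z) * (2 * phi (dbl z) - phi z)) :=
    (mdifferentiable_const.mul (mdiff_dbl ee_mdiff)).mul
      ((mdifferentiable_const.mul (mdiff_dbl phi_mdiff)).sub phi_mdiff)
  have t1 : Filter.Tendsto (fun z => ee z * (phi z + phi (dbl z))) atImInfty (𝓝 (1 * (1 + 1))) :=
    ee_tendsto.mul (phi_tendsto.add (phi_tendsto.comp tendsto_dbl))
  have t2 : Filter.Tendsto (fun z => 2 * ee (dbl z) * (2 * phi (dbl z) - phi z)) atImInfty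
      (𝓝 (2 * 1 * (2 * 1 - 1))) :=
    (tendsto_const_nhds.mul (ee_tendsto.comp tendsto_dbl)).mul
      ((tendsto_const_nhds.mul (phi_tendsto.comp tendsto_dbl)).sub phi_tendsto)
  have h0 : (fun z => ee z * (phi z + phi (dbl z)) - 2 * ee (dbl z) * (2 * phi (dbl z) - phi z)) *
      (fun z => ee z * (phi z + phi (dbl z)) + 2 * ee (dbl z) * (2 * phi (dbl z) - phi z)) =
      (0 : ℍ → ℂ) := by
    funext w
    exact edb_alg _ _ _ (psi w) _ (psi (dbl w)) (mod_lin w) (mod_eq w) (ee_sq w) (ee_sq (dbl w))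
  rcases (UpperHalfPlane.mul_eq_zero_iff (m1.sub m2) (m1.add m2)).1 h0 with h | h
  · exact sub_eq_zero.1 (congrFun h z)
  · exfalso
    have t3 := t1.add t2
    have h' : (fun z => ee z * (phi z + phi (dbl z)) +
        2 * ee (dbl z) * (2 * phi (dbl z) - phi z)) = fun _ => (0 : ℂ) := h
    rw [h'] at t3
    have h2 := tendsto_nhds_unique t3 tendsto_const_nhds
    norm_num at h2

theorem UU_ee_psi (z : ℍ) : UU (fun z => ee z * psi z) z = 32 * (ee z * psi z) := by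
  have r1 := UU_rule1 (fun _ => 1) z
  have r2 := UU_rule1 ee z
  have e0 := ee_dbl (hlf0 z)
  have e1 := ee_dbl (hlf1 z)
  rw [dbl_hlf0] at e0
  rw [dbl_hlf1, ee_per z, phi_per z] at e1
  have e2 := UU_ee z
  have e3 := UU_psi z
  rw [e2] at r2
  simp only [one_mul] at r1
  have e4 : UU (fun _ => (1 : ℂ)) z = 1 := by
    unfold UU
    norm_num
  have e5 : UU (fun z => psi z) z = 8 * psi z := e3
  rw [e4, e5] at r1
  unfold UU at r1 r2 e2 ⊢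
  linear_combination (1 / 16) * r2 - (1 / 32) * e0 - (1 / 32) * e1 + (1 / 16) * phi z * e2 +
    (1 / 8) * ee z * r1

end Pool.Agent.GV.MF
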