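import Pool.Agent.GV.MF.E4m

/-!
# GV-MF-FG: properties of `phi` and `psi`

Plan.  Everything follows from file E4m.  `phi_siv`: `e4 (dbl (siv z)) = e4 (siv (hlf0 z)) =
(z/2)^4 e4 (z/2)`, `e4 (siv z) = z^4 e4 z`; so
`phi (siv z) = (z^4 e4(z/2) - z^4 e4 z)/15 = 16 z^4 psi(z/2)` (`dbl (hlf0 z) = z`).
`phi_inv`: for `γ = (a b; 2c d)`: `dbl (γ • z) = γ' • dbl z` with `γ' = (a 2b; c d)` and
`denom γ' (dbl z) = denom γ z`.
`UU_psi`: `UU (e4 ∘ dbl) = e4` (`UU_mul_dbl` with `F = 1`), `UU e4 = 9 e4 - 8 e4 ∘ dbl`: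
`UU psi = (9 e4 - 8 e4(2z) - e4)/240 = 8 psi`.
`psi_tendsto_q`: `(e4 z - 1)/q → 240`, `(e4 (2z) - 1)/q = q (e4(2z) - 1)/q² → 0`
(`qq (dbl z) = qq z ^ 2`).
-/

open UpperHalfPlane ModularForm CongruenceSubgroup Complex
open scoped MatrixGroups Manifold ModularForm Real Topology

namespace Pool.Agent.GV.MF

lemma e4_eq (z : ℍ) : e4 z = phi z + 256 * psi z := by
  unfold phi psi; ring

lemma e4_dbl_eq (z : ℍ) : e4 (dbl z) = phi z + 16 * psi z := by
  unfold phi psi; ring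

lemma phi_mdiff : MDiff phi := by
  have h1 : MDiff (fun z : ℍ => e4 (dbl z)) := mdiff_dbl e4_mdiff
  have h2 : MDiff e4 := e4_mdiff
  have h3 : phi = (fun z : ℍ => ((16 / 15 : ℂ) • (fun z : ℍ => e4 (dbl z)) -
      (1 / 15 : ℂ) • e4) z) := by
    funext z
    simp only [phi, Pi.sub_apply, Pi.smul_apply, smul_eq_mul]
    ring
  rw [h3]
  exact (h1.const_smul (16 / 15 : ℂ)).sub (h2.const_smul (1 / 15 : ℂ))

lemma psi_mdiff : MDiff psi := by
  have h1 : MDiff (fun z : ℍ => e4 (dbl z)) := mdiff_dbl e4_mdiff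
  have h2 : MDiff e4 := e4_mdiff
  have h3 : psi = (fun z : ℍ => ((1 / 240 : ℂ) • e4 -
      (1 / 240 : ℂ) • (fun z : ℍ => e4 (dbl z))) z) := by
    funext z
    simp only [psi, Pi.sub_apply, Pi.smul_apply, smul_eq_mul]
    ring
  rw [h3]
  exact (h2.const_smul (1 / 240 : ℂ)).sub (h1.const_smul (1 / 240 : ℂ))

lemma phi_per : Per phi := by
  intro z
  have h1 := per_dbl e4_per z
  have h2 := e4_per z
  simp only at h1
  unfold phi
  rw [h1, h2]

lemma psi_per : Per psi := by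
  intro z
  have h1 := per_dbl e4_per z
  have h2 := e4_per z
  simp only at h1
  unfold psi
  rw [h1, h2]

private lemma e4_dbl_tendsto : Filter.Tendsto (fun z => e4 (dbl z)) atImInfty (𝓝 1) :=
  e4_tendsto.comp tendsto_dbl

lemma phi_tendsto : Filter.Tendsto phi atImInfty (𝓝 1) := by
  have h := ((e4_dbl_tendsto.const_mul (16 : ℂ)).sub e4_tendsto).div_const (15 : ℂ)
  have h2 : ((16 : ℂ) * 1 - 1) / 15 = 1 := by norm_num
  rw [h2] at h
  exact h

lemma psi_tendsto : Filter.Tendsto psi atImInfty (𝓝 0) := by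
  have h := (e4_tendsto.sub e4_dbl_tendsto).div_const (240 : ℂ)
  have h2 : ((1 : ℂ) - 1) / 240 = 0 := by norm_num
  rw [h2] at h
  exact h

private lemma qq_ne (z : ℍ) : qq z ≠ 0 := Complex.exp_ne_zero _

private lemma qq_dbl (z : ℍ) : qq (dbl z) = qq z ^ 2 := by
  unfold qq
  rw [← Complex.exp_nat_mul]
  congr 1
  rw [coe_dbl]
  push_cast
  ring

private lemma norm_qq (z : ℍ) : ‖qq z‖ = Real.exp (-(2 * π * z.im)) := by
  unfold qq
  rw [Complex.norm_exp]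
  congr 1
  have h : (2 * (π : ℂ) * Complex.I * (z : ℂ)) = ((2 * π : ℝ) : ℂ) * (Complex.I * (z : ℂ)) := by
    push_cast
    ring
  rw [h, Complex.re_ofReal_mul]
  simp

private lemma qq_tendsto : Filter.Tendsto qq atImInfty (𝓝 0) := by
  rw [tendsto_zero_iff_norm_tendsto_zero]
  have h0 : Filter.Tendsto (fun z : ℍ => z.im) atImInfty Filter.atTop := by
    unfold atImInfty
    exact Filter.tendsto_comap
  have h1 : Filter.Tendsto (fun z : ℍ => 2 * π * z.im) atImInfty Filter.atTop :=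
    h0.const_mul_atTop (by positivity)
  have h2 := Real.tendsto_exp_neg_atTop_nhds_zero.comp h1
  refine h2.congr ?_
  intro z
  rw [norm_qq]
  rfl

lemma psi_tendsto_q : Filter.Tendsto (fun z => psi z / qq z) atImInfty (𝓝 1) := by
  have h1 := e4_tendsto_q
  have h2 : Filter.Tendsto (fun z => (e4 (dbl z) - 1) / qq (dbl z)) atImInfty (𝓝 240) :=
    e4_tendsto_q.comp tendsto_dbl
  have h3 := (h1.sub (qq_tendsto.mul h2)).div_const (240 : ℂ)
  have h4 : ((240 : ℂ) - 0 * 240) / 240 = 1 := by norm_num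
  rw [h4] at h3
  refine h3.congr ?_
  intro z
  have hq := qq_ne z
  rw [qq_dbl]
  unfold psi
  field_simp
  ring

lemma phi_siv (z : ℍ) : phi (siv z) = 16 * (z : ℂ) ^ 4 * psi (hlf0 z) := by
  unfold phi psi
  rw [dbl_siv, e4_siv, e4_siv, dbl_hlf0, coe_hlf0]
  ring

lemma psi_siv (z : ℍ) : psi (siv z) = (z : ℂ) ^ 4 * phi (hlf0 z) / 256 := by
  unfold phi psi
  rw [dbl_siv, e4_siv, e4_siv, dbl_hlf0, coe_hlf0]
  ring

private lemma denom_sl (γ : SL(2, ℤ)) (z : ℍ) :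
    UpperHalfPlane.denom γ z = ((γ 1 0 : ℤ) : ℂ) * (z : ℂ) + ((γ 1 1 : ℤ) : ℂ) := by
  simp [UpperHalfPlane.denom]

private lemma e4_dbl_inv : Inv 4 (fun z => e4 (dbl z)) := by
  intro γ hγ z
  rw [CongruenceSubgroup.Gamma0_mem] at hγ
  obtain ⟨c, hc⟩ : (2 : ℤ) ∣ γ 1 0 := by
    have h := (ZMod.intCast_zmod_eq_zero_iff_dvd (γ 1 0) 2).mp
    exact_mod_cast h hγ
  have hdet : γ 0 0 * γ 1 1 - γ 0 1 * γ 1 0 = 1 := by
    have h := γ.det_coe
    rw [Matrix.det_fin_two] at h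
    exact h
  obtain ⟨γ', h00, h01, h10, h11⟩ : ∃ γ' : SL(2, ℤ), γ' 0 0 = γ 0 0 ∧ γ' 0 1 = 2 * γ 0 1 ∧
      γ' 1 0 = c ∧ γ' 1 1 = γ 1 1 := by
    refine ⟨⟨!![γ 0 0, 2 * γ 0 1; c, γ 1 1], ?_⟩, rfl, rfl, rfl, rfl⟩
    rw [Matrix.det_fin_two_of]
    rw [hc] at hdet
    linarith
  have hden : UpperHalfPlane.denom γ' (dbl z) = UpperHalfPlane.denom γ z := by
    rw [denom_sl, denom_sl, h10, h11, hc, coe_dbl]
    push_cast
    ring
  have hsm : dbl (γ • z) = γ' • dbl z := by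
    apply UpperHalfPlane.ext
    have hn : ((γ 1 0 : ℤ) : ℂ) * (z : ℂ) + ((γ 1 1 : ℤ) : ℂ) ≠ 0 := by
      rw [← denom_sl]
      exact UpperHalfPlane.denom_ne_zero _ _
    rw [coe_dbl, UpperHalfPlane.coe_specialLinearGroup_apply,
      UpperHalfPlane.coe_specialLinearGroup_apply, h00, h01, h10, h11, hc, coe_dbl]
    rw [hc] at hn
    simp only [algebraMap_int_eq, Int.coe_castRingHom, Complex.ofReal_intCast] at hn ⊢
    push_cast at hn ⊢
    have hn' : (c : ℂ) * (2 * (z : ℂ)) + ((γ 1 1 : ℤ) : ℂ) ≠ 0 := by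
      intro h0
      apply hn
      rw [← h0]
      ring
    rw [mul_div_assoc', div_eq_div_iff hn hn']
    ring
  simp only
  rw [hsm, e4_slash, hden]

private lemma e4_inv : Inv 4 e4 := fun γ _ z => e4_slash γ z

lemma phi_inv : Inv 4 phi := by
  intro γ hγ z
  have h1 := e4_dbl_inv γ hγ z
  have h2 := e4_inv γ hγ z
  simp only at h1
  unfold phi
  rw [h1, h2]
  ring

lemma psi_inv : Inv 4 psi := by
  intro γ hγ z
  have h1 := e4_dbl_inv γ hγ z
  have h2 := e4_inv γ hγ z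
  simp only at h1
  unfold psi
  rw [h1, h2]
  ring

lemma UU_psi (z : ℍ) : UU psi z = 8 * psi z := by
  have h1 := UU_e4 z
  have h2 := UU_mul_dbl (fun _ => (1 : ℂ)) e4_per z
  have h3 : UU (fun _ => (1 : ℂ)) z = 1 := by
    unfold UU
    norm_num
  rw [h3] at h2
  simp only [one_mul, mul_one] at h2
  have h4 : UU psi z = (UU e4 z - UU (fun z => e4 (dbl z)) z) / 240 := by
    unfold UU psi
    ring
  rw [h4, h1, h2]
  unfold psi
  ring

end Pool.Agent.GV.MF
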