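import Pool.Agent.GV.MF.Defs

/-!
# GV-MF-Geo: the maps `dbl`, `hlf0`, `hlf1`, `shf`, `siv`

Plan.  The identities by `UpperHalfPlane.ext` and computation of the complex numbers
(`ModularGroup.S • z = ⟨-1/z⟩`: `UpperHalfPlane.modular_S_smul`).
Holomorphy: `UpperHalfPlane.mdifferentiable_iff` (and `ofComplex_apply_of_im_pos`), or `dbl`,
`hlf0`, ... as smul by `GL(2, ℝ)` matrices, or `hf.comp` with a proof that the map is `MDiff`.
`Tendsto _ atImInfty atImInfty`: `atImInfty = comap im atTop`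
(`UpperHalfPlane.atImInfty`), the imaginary part is multiplied by `2`, `1/2`, `1`.
`mdiff_siv`: `MDifferentiable.slash` of weight `0`, or comp.
-/

open UpperHalfPlane ModularForm CongruenceSubgroup Complex
open scoped MatrixGroups Manifold ModularForm Real Topology

namespace Pool.Agent.GV.MF

lemma coe_dbl (z : ℍ) : ((dbl z : ℍ) : ℂ) = 2 * z := rfl
lemma coe_hlf0 (z : ℍ) : ((hlf0 z : ℍ) : ℂ) = z / 2 := rfl
lemma coe_hlf1 (z : ℍ) : ((hlf1 z : ℍ) : ℂ) = (z + 1) / 2 := rfl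
lemma coe_shf (z : ℍ) : ((shf z : ℍ) : ℂ) = z + 1 := rfl

lemma coe_siv (z : ℍ) : ((siv z : ℍ) : ℂ) = -1 / z := by
  unfold siv
  rw [modular_S_smul]
  show (-(z : ℂ))⁻¹ = -1 / z
  rw [neg_div, one_div, inv_neg]

lemma dbl_hlf0 (z : ℍ) : dbl (hlf0 z) = z := by
  apply UpperHalfPlane.ext
  rw [coe_dbl, coe_hlf0]
  ring

lemma hlf0_dbl (z : ℍ) : hlf0 (dbl z) = z := by
  apply UpperHalfPlane.ext
  rw [coe_hlf0, coe_dbl]
  ring

lemma dbl_hlf1 (z : ℍ) : dbl (hlf1 z) = shf z := by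
  apply UpperHalfPlane.ext
  rw [coe_dbl, coe_hlf1, coe_shf]
  ring

lemma hlf0_shf (z : ℍ) : hlf0 (shf z) = hlf1 z := by
  apply UpperHalfPlane.ext
  rw [coe_hlf0, coe_hlf1, coe_shf]

lemma hlf1_shf (z : ℍ) : hlf1 (shf z) = shf (hlf0 z) := by
  apply UpperHalfPlane.ext
  rw [coe_hlf1, coe_shf, coe_shf, coe_hlf0]
  ring

lemma siv_siv (z : ℍ) : siv (siv z) = z := by
  apply UpperHalfPlane.ext
  have hz := z.ne_zero
  rw [coe_siv, coe_siv]
  field_simp

lemma dbl_siv (z : ℍ) : dbl (siv z) = siv (hlf0 z) := by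
  apply UpperHalfPlane.ext
  have hz := z.ne_zero
  rw [coe_dbl, coe_siv, coe_siv, coe_hlf0]
  field_simp

lemma hlf0_siv (z : ℍ) : hlf0 (siv z) = siv (dbl z) := by
  apply UpperHalfPlane.ext
  have hz := z.ne_zero
  rw [coe_hlf0, coe_siv, coe_siv, coe_dbl]
  field_simp

lemma shf_eq_vadd (z : ℍ) : shf z = (1 : ℝ) +ᵥ z := by
  apply UpperHalfPlane.ext
  rw [coe_shf, UpperHalfPlane.coe_vadd, Complex.ofReal_one, add_comm]

lemma shf_eq_T (z : ℍ) : shf z = ModularGroup.T • z := by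
  rw [modular_T_smul, shf_eq_vadd]

private lemma mdiff_comp {F : ℍ → ℂ} (hF : MDiff F) (g : ℍ → ℍ) (G : ℂ → ℂ)
    (hg : ∀ z : ℍ, ((g z : ℍ) : ℂ) = G z) (hG : DifferentiableOn ℂ G {z | 0 < z.im}) :
    MDiff (fun z => F (g z)) := by
  rw [UpperHalfPlane.mdifferentiable_iff] at hF ⊢
  have hmaps : Set.MapsTo G {z : ℂ | 0 < z.im} {z : ℂ | 0 < z.im} := by
    intro w hw
    have h1 := hg ⟨w, hw⟩
    change ((g ⟨w, hw⟩ : ℍ) : ℂ) = G w at h1
    show 0 < (G w).im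
    rw [← h1]
    exact (g ⟨w, hw⟩).im_pos
  refine (hF.comp hG hmaps).congr ?_
  intro w hw
  have h1 := hg ⟨w, hw⟩
  change ((g ⟨w, hw⟩ : ℍ) : ℂ) = G w at h1
  show F (g (UpperHalfPlane.ofComplex w)) = F (UpperHalfPlane.ofComplex (G w))
  rw [UpperHalfPlane.ofComplex_apply_of_im_pos hw, ← h1, UpperHalfPlane.ofComplex_apply]

private lemma tendsto_of_im {g : ℍ → ℍ} {c : ℝ} (hc : 0 < c) (hg : ∀ z : ℍ, (g z).im = c * z.im) :
    Filter.Tendsto g atImInfty atImInfty := by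
  unfold UpperHalfPlane.atImInfty
  rw [Filter.tendsto_comap_iff]
  have : UpperHalfPlane.im ∘ g = (fun t : ℝ => c * t) ∘ UpperHalfPlane.im := by
    funext z
    exact hg z
  rw [this]
  exact (Filter.tendsto_id.const_mul_atTop hc).comp Filter.tendsto_comap

lemma mdiff_dbl {F : ℍ → ℂ} (hF : MDiff F) : MDiff (fun z => F (dbl z)) := by
  exact mdiff_comp hF dbl (fun z => 2 * z) coe_dbl (by fun_prop)

lemma mdiff_hlf0 {F : ℍ → ℂ} (hF : MDiff F) : MDiff (fun z => F (hlf0 z)) := by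
  exact mdiff_comp hF hlf0 (fun z => z / 2) coe_hlf0 (by fun_prop)

lemma mdiff_hlf1 {F : ℍ → ℂ} (hF : MDiff F) : MDiff (fun z => F (hlf1 z)) := by
  exact mdiff_comp hF hlf1 (fun z => (z + 1) / 2) coe_hlf1 (by fun_prop)

lemma mdiff_siv {F : ℍ → ℂ} (hF : MDiff F) : MDiff (fun z => F (siv z)) := by
  refine mdiff_comp hF siv (fun z => -1 / z) coe_siv ?_
  intro z hz
  have hz0 : z ≠ 0 := by
    rintro rfl
    have h0 : (0 : ℝ) < (0 : ℂ).im := hz
    simp at h0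
  exact ((differentiableAt_const _).div differentiableAt_id hz0).differentiableWithinAt

lemma tendsto_dbl : Filter.Tendsto dbl atImInfty atImInfty := by
  refine tendsto_of_im (c := 2) (by norm_num) fun z => ?_
  show (2 * (z : ℂ)).im = 2 * z.im
  simp

lemma tendsto_hlf0 : Filter.Tendsto hlf0 atImInfty atImInfty := by
  refine tendsto_of_im (c := 1 / 2) (by norm_num) fun z => ?_
  show ((z : ℂ) / 2).im = 1 / 2 * z.im
  simp
  ring

lemma tendsto_hlf1 : Filter.Tendsto hlf1 atImInfty atImInfty := by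
  refine tendsto_of_im (c := 1 / 2) (by norm_num) fun z => ?_
  show (((z : ℂ) + 1) / 2).im = 1 / 2 * z.im
  simp
  ring

lemma per_dbl {F : ℍ → ℂ} (hF : Per F) : Per (fun z => F (dbl z)) := by
  intro z
  show F (dbl (shf z)) = F (dbl z)
  have : dbl (shf z) = shf (shf (dbl z)) := by
    apply UpperHalfPlane.ext
    rw [coe_dbl, coe_shf, coe_shf, coe_shf, coe_dbl]
    ring
  rw [this, hF, hF]

/-- a function of period one is periodic in the sense of Mathlib -/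
lemma per_comp_ofComplex {F : ℍ → ℂ} (hF : Per F) :
    Function.Periodic (F ∘ UpperHalfPlane.ofComplex) (1 : ℝ) := by
  intro w
  show F (UpperHalfPlane.ofComplex (w + ((1 : ℝ) : ℂ))) = F (UpperHalfPlane.ofComplex w)
  by_cases hw : 0 < w.im
  · have h1 : UpperHalfPlane.ofComplex (w + ((1 : ℝ) : ℂ)) = shf (UpperHalfPlane.ofComplex w) := by
      rw [UpperHalfPlane.ofComplex_apply_of_im_pos hw,
        UpperHalfPlane.ofComplex_apply_of_im_pos (z := w + ((1 : ℝ) : ℂ)) (by simpa using hw)]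
      apply UpperHalfPlane.ext
      rw [coe_shf]
      show w + ((1 : ℝ) : ℂ) = w + 1
      rw [Complex.ofReal_one]
    rw [h1, hF]
  · congr 1
    exact UpperHalfPlane.ofComplex_apply_eq_of_im_nonpos (by simpa using hw) (by simpa using hw)

/-- the values used in the frozen statement -/
lemma ofComplex_hlf (z : ℍ) :
    UpperHalfPlane.ofComplex (((z : ℂ) + ((0 : ℕ) : ℂ)) / ((2 : ℕ) : ℂ)) = hlf0 z ∧
    UpperHalfPlane.ofComplex (((z : ℂ) + ((1 : ℕ) : ℂ)) / ((2 : ℕ) : ℂ)) = hlf1 z := by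
  constructor
  · have h : ((z : ℂ) + ((0 : ℕ) : ℂ)) / ((2 : ℕ) : ℂ) = ((hlf0 z : ℍ) : ℂ) := by
      rw [coe_hlf0]
      push_cast
      ring
    rw [h, UpperHalfPlane.ofComplex_apply]
  · have h : ((z : ℂ) + ((1 : ℕ) : ℂ)) / ((2 : ℕ) : ℂ) = ((hlf1 z : ℍ) : ℂ) := by
      rw [coe_hlf1]
      push_cast
      ring
    rw [h, UpperHalfPlane.ofComplex_apply]

end Pool.Agent.GV.MF
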