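import Pool.Agent.GV.MF.Del

/-!
# GV-MF-Grow: subtracting the constant term

Plan.  `u` holomorphic, of period one, bounded at `i∞`.  Its `cuspFunction 1 u` is analytic at `0`
(`UpperHalfPlane.analyticAt_cuspFunction_zero`, period: `per_comp_ofComplex`), so `u → c` and
`u z - c = O(exp(-2π im z))` (there are lemmas `exp_decay_sub_atImInfty` or similar in
QExpansion.lean; otherwise: an analytic `g` with `g(q) - g(0) = O(q)`).  Divide by `ψ`,
`ψ / q → 1` (`psi_tendsto_q`), `|q| = exp(-2π im z)`.
-/

open UpperHalfPlane ModularForm CongruenceSubgroup Complex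
open scoped MatrixGroups Manifold ModularForm Real Topology

namespace Pool.Agent.GV.MF

private lemma grow_norm_qq (z : ℍ) : ‖qq z‖ = Real.exp (-2 * π * z.im / 1) := by
  unfold qq
  rw [Complex.norm_exp]
  congr 1
  have h : (2 * (π : ℂ) * Complex.I * (z : ℂ)).re = -(2 * π * (z : ℂ).im) := by
    simp [Complex.mul_re, Complex.mul_im]
  rw [h, div_one]
  simp only [UpperHalfPlane.coe_im]
  ring

theorem grow {u : ℍ → ℂ} (hu : MDiff u) (hper : Per u) (hb : IsBoundedAtImInfty u) :
    ∃ c : ℂ, IsBoundedAtImInfty (fun z => (u z - c) / psi z) := by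
  refine ⟨valueAtInfty u, ?_⟩
  have h1 := UpperHalfPlane.exp_decay_sub_atImInfty one_pos (per_comp_ofComplex hper) hu hb
  have h2 : (fun z => u z - valueAtInfty u) =O[atImInfty] qq := by
    refine h1.trans (Asymptotics.IsBigO.of_norm_right ?_)
    refine Asymptotics.IsBigO.of_bound 1 (Filter.Eventually.of_forall fun z => ?_)
    rw [Real.norm_of_nonneg (Real.exp_pos _).le, one_mul, norm_norm, grow_norm_qq]
  have h3 : Filter.Tendsto (fun z => qq z / psi z) atImInfty (𝓝 1) := by
    have := psi_tendsto_q.inv₀ one_ne_zero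
    simpa using this
  have h4 : (fun z => qq z / psi z) =O[atImInfty] (fun _ => (1 : ℂ)) := h3.isBigO_one ℂ
  have hq : ∀ z, qq z ≠ 0 := fun z => Complex.exp_ne_zero _
  have h5 : (fun z => (u z - valueAtInfty u) * (qq z / psi z)) =O[atImInfty]
      (fun z => qq z * (1 : ℂ)) := h2.mul h4
  have h6 : (fun z => (u z - valueAtInfty u) / psi z) =O[atImInfty] (fun _ => (1 : ℂ)) := by
    have h7 : (fun z => (qq z)⁻¹ * ((u z - valueAtInfty u) * (qq z / psi z))) =O[atImInfty]
        (fun z => (qq z)⁻¹ * (qq z * (1 : ℂ))) :=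
      (Asymptotics.isBigO_refl _ _).mul h5
    refine (h7.congr (fun z => ?_) (fun z => ?_))
    · field_simp [hq z]
    · field_simp [hq z]
  change (fun z => (u z - valueAtInfty u) / psi z) =O[atImInfty] (1 : ℍ → ℝ)
  refine h6.trans (Asymptotics.IsBigO.of_bound 1 (Filter.Eventually.of_forall fun z => ?_))
  simp

end Pool.Agent.GV.MF
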