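import Pool.Agent.GV.MF.Del

/-!
# GV-MF-ModEq: the modular equation `ψ² = ψ(2z) (16 ψ + φ(2z))` and the rules for `U_2`

Write `φ2 = φ(2z)`, `ψ2 = ψ(2z)`.
Plan.  `e4_dbl_eq` at `z` and `e4_eq` at `dbl z`: `φ + 16 ψ = φ2 + 256 ψ2`.
`del_two z` and `del_one (dbl z)`: `φ ψ² = φ2² ψ2`.  Hence
`(ψ² - 16 ψ ψ2 - φ2 ψ2) (φ2 - 16 ψ) = 0` (expand).  Both factors are holomorphic; the second tends
to `1` at `i∞`, so it is not the zero function; `UpperHalfPlane.mul_eq_zero_iff`.
`UU_rule1`: `F φ + 16 F ψ = F * e4(2z)` and `UU_mul_dbl`, `e4 = φ + 256 ψ`.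
`UU_rule2`: `F ψ² = F * 16 ψ * ψ2 + F * (φ ψ)(2z)`, `UU_mul_dbl`.
-/

open UpperHalfPlane ModularForm CongruenceSubgroup Complex
open scoped MatrixGroups Manifold ModularForm Real Topology

namespace Pool.Agent.GV.MF

theorem mod_lin (z : ℍ) : phi z + 16 * psi z = phi (dbl z) + 256 * psi (dbl z) := by
  rw [← e4_dbl_eq, ← e4_eq]

theorem mod_eq (z : ℍ) : psi z ^ 2 = psi (dbl z) * (16 * psi z + phi (dbl z)) := by
  have hpd : MDiff (fun z => phi (dbl z)) := mdiff_dbl phi_mdiff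
  have hsd : MDiff (fun z => psi (dbl z)) := mdiff_dbl psi_mdiff
  have hc : ∀ c : ℂ, MDiff (fun _ : ℍ => c) := fun c => mdifferentiable_const
  let A : ℍ → ℂ := (psi * psi - (fun _ => 16) * psi * (fun z => psi (dbl z))) -
      (fun z => phi (dbl z)) * (fun z => psi (dbl z))
  let B : ℍ → ℂ := (fun z => phi (dbl z)) - (fun _ => 16) * psi
  have h1 : MDiff A :=
    ((psi_mdiff.mul psi_mdiff).sub (((hc 16).mul psi_mdiff).mul hsd)).sub (hpd.mul hsd)
  have h2 : MDiff B :=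
    hpd.sub ((hc 16).mul psi_mdiff)
  have h3 : A * B = 0 := by
    funext w
    have e1 := mod_lin w
    have e2 := (del_two w).symm.trans (del_one (dbl w))
    simp only [A, B, Pi.mul_apply, Pi.sub_apply, Pi.zero_apply]
    linear_combination (-psi w ^ 2) * e1 + e2
  rcases (UpperHalfPlane.mul_eq_zero_iff h1 h2).1 h3 with h4 | h4
  · have h5 := congrFun h4 z
    simp only [A, Pi.mul_apply, Pi.sub_apply, Pi.zero_apply] at h5
    linear_combination h5
  · exfalso
    have h5 : Filter.Tendsto B atImInfty (𝓝 (1 - 16 * 0)) :=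
      (phi_tendsto.comp tendsto_dbl).sub (tendsto_const_nhds.mul psi_tendsto)
    rw [h4] at h5
    have h6 : Filter.Tendsto (0 : ℍ → ℂ) atImInfty (𝓝 0) := tendsto_const_nhds
    have h7 := tendsto_nhds_unique h5 h6
    norm_num at h7

theorem UU_rule1 (F : ℍ → ℂ) (z : ℍ) :
    UU (fun z => F z * phi z) z + 16 * UU (fun z => F z * psi z) z =
      (phi z + 256 * psi z) * UU F z := by
  rw [← e4_eq, ← UU_mul_dbl F e4_per z, ← UU_smul, ← UU_add]
  congr 1
  funext w
  rw [e4_dbl_eq]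
  ring

theorem UU_rule2 (F : ℍ → ℂ) (z : ℍ) :
    UU (fun z => F z * psi z ^ 2) z =
      16 * psi z * UU (fun z => F z * psi z) z + phi z * psi z * UU F z := by
  have hp : Per (fun z => phi z * psi z) := fun w => by
    show phi (shf w) * psi (shf w) = phi w * psi w
    rw [phi_per w, psi_per w]
  rw [mul_assoc 16 (psi z), ← UU_mul_dbl (fun z => F z * psi z) psi_per z,
    ← UU_mul_dbl F hp z, ← UU_smul, ← UU_add]
  congr 1
  funext w
  rw [mod_eq w]
  ring

end Pool.Agent.GV.MF
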