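import Pool.Agent.GV.MF.Grow

/-!
# GV-MF-Span0: cusp forms of weight `4 a` are spanned by `φ^(a-j) ψ^j`, `1 ≤ j ≤ a - 1`

Plan.  Let `y = ψ / φ` (no zeros, no poles, `Inv 0`, period one, `y → 0` at `i∞`,
`y (siv z) = 1 / (4096 y(z/2))`), `g = f / φ^a` (`Inv 0`).
Claim (induction on `i`, `1 ≤ i ≤ a`): there are `c_1, ..., c_{i-1}` with
`u_i = (g - ∑_{j<i} c_j y^j) / y^i` bounded at `i∞`.
`i = 1`: `g / y = f / (φ^(a-1) ψ)`: `f → 0` at `i∞` and periodic, by `grow` applied to `f`:
`(f - c)/ψ` bounded for some `c`, so `c = 0` (as `ψ → 0`, `f → 0`), `f/ψ` bounded.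
Step: `grow` applied to `u_i`: `(u_i - c)/ψ` bounded, so `(u_i - c)/y` bounded, take `c_i = c`.
At `i = a`: `h = u_a = (g - ∑_{j=1}^{a-1} c_j y^j)/y^a` is bounded at `i∞`, `Inv 0`, and
`h (siv z) = (256/φ(z/2))^a f(siv z) z^(-4a) - ∑_{j<a} c_j (4096 y(z/2))^(a-j) → 0`
(`phi_siv`, `psi_siv`; `zeroS`).  By `weight_zero`, `h` is constant, equal to its limit `0` along
`siv`.  So `g = ∑ c_j y^j`, `f = ∑ c_j φ^(a-j) ψ^j`.
-/

open UpperHalfPlane ModularForm CongruenceSubgroup Complex
open scoped MatrixGroups Manifold ModularForm Real Topology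

namespace Pool.Agent.GV.MF

private lemma mdiff_div0 {f g : ℍ → ℂ} (hf : MDiff f) (hg : MDiff g) (h0 : ∀ z, g z ≠ 0) :
    MDiff (fun z => f z / g z) := by
  rw [UpperHalfPlane.mdifferentiable_iff] at hf hg ⊢
  exact hf.div hg fun z _ => h0 _

private lemma mdiff_sub0 {f g : ℍ → ℂ} (hf : MDiff f) (hg : MDiff g) :
    MDiff (fun z => f z - g z) := by
  rw [UpperHalfPlane.mdifferentiable_iff] at hf hg ⊢
  exact hf.sub hg

private lemma mdiff_pow0 {f : ℍ → ℂ} (hf : MDiff f) (n : ℕ) : MDiff (fun z => f z ^ n) := by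
  rw [UpperHalfPlane.mdifferentiable_iff] at hf ⊢
  exact hf.pow n

private lemma mdiff_sum0 (c : ℕ → ℂ) {f : ℍ → ℂ} (hf : MDiff f) (s : Finset ℕ) :
    MDiff (fun z => ∑ j ∈ s, c j * f z ^ j) := by
  rw [UpperHalfPlane.mdifferentiable_iff] at hf ⊢
  exact DifferentiableOn.fun_sum fun j _ => (hf.pow j).const_mul (c j)

private lemma bdd_of_tendsto0 {f : ℍ → ℂ} {l : ℂ} (h : Filter.Tendsto f atImInfty (𝓝 l)) :
    IsBoundedAtImInfty f := h.isBigO_one ℝ

private lemma bdd_mul0 {f g : ℍ → ℂ} (hf : IsBoundedAtImInfty f) (hg : IsBoundedAtImInfty g) :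
    IsBoundedAtImInfty (fun z => f z * g z) := by
  have hf' : f =O[atImInfty] (1 : ℍ → ℝ) := hf
  have hg' : g =O[atImInfty] (1 : ℍ → ℝ) := hg
  exact (hf'.mul hg').congr_right fun z => by simp

private lemma tendsto_zero_mul_bdd0 {f g : ℍ → ℂ} (hf : Filter.Tendsto f atImInfty (𝓝 0))
    (hg : IsBoundedAtImInfty g) : Filter.Tendsto (fun z => f z * g z) atImInfty (𝓝 0) := by
  have h1 : f =o[atImInfty] (fun _ => (1 : ℝ)) := (Asymptotics.isLittleO_one_iff ℝ).2 hf
  have hg' : g =O[atImInfty] (1 : ℍ → ℝ) := hg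
  have h3 : (fun z => f z * g z) =o[atImInfty] (fun _ => (1 : ℝ)) :=
    (h1.mul_isBigO hg').congr_right fun z => by simp
  exact (Asymptotics.isLittleO_one_iff ℝ).1 h3

/-- `y = ψ / φ` -/
private noncomputable def yy (z : ℍ) : ℂ := psi z / phi z

private lemma yy_ne (z : ℍ) : yy z ≠ 0 := div_ne_zero (psi_ne_zero z) (phi_ne_zero z)

private lemma yy_mdiff : MDiff yy := mdiff_div0 psi_mdiff phi_mdiff phi_ne_zero

private lemma yy_per : Per yy := fun z => by
  unfold yy
  rw [psi_per z, phi_per z]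

private lemma yy_tendsto : Filter.Tendsto yy atImInfty (𝓝 0) := by
  have h := psi_tendsto.div phi_tendsto one_ne_zero
  rw [zero_div] at h
  exact h

private lemma yy_inv {γ : SL(2, ℤ)} (hγ : γ ∈ CongruenceSubgroup.Gamma0 2) (z : ℍ) :
    yy (γ • z) = yy z := by
  unfold yy
  rw [psi_inv γ hγ z, phi_inv γ hγ z, mul_div_mul_left _ _ (pow_ne_zero 4 (denom_ne_zero _ z))]

private lemma yy_siv (z : ℍ) : yy (siv z) = (4096 * yy (hlf0 z))⁻¹ := by
  unfold yy
  rw [psi_siv, phi_siv]
  have h1 := ne_zero z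
  have h2 := psi_ne_zero (hlf0 z)
  have h3 := phi_ne_zero (hlf0 z)
  field_simp
  norm_num

theorem span0 (a : ℕ) (ha : 1 ≤ a) (f : ℍ → ℂ) (hf : IsCF (4 * a) f) :
    ∃ c : ℕ → ℂ, ∀ z, f z = ∑ j ∈ Finset.Icc 1 (a - 1), c j * (phi z ^ (a - j) * psi z ^ j) := by
  set g : ℍ → ℂ := fun z => f z / phi z ^ a with hg
  have hφa : ∀ z, phi z ^ a ≠ 0 := fun z => pow_ne_zero a (phi_ne_zero z)
  have hfper : Per f := by
    intro z
    have h1 : ModularGroup.T ∈ CongruenceSubgroup.Gamma0 2 := by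
      rw [CongruenceSubgroup.Gamma0_mem]
      simp [ModularGroup.T]
    have h2 := hf.inv _ h1 z
    rw [shf_eq_T, h2]
    have h3 : denom (ModularGroup.T : GL (Fin 2) ℝ) z = 1 := by
      rw [ModularGroup.denom_apply]
      simp [ModularGroup.T]
    rw [h3, one_pow, one_mul]
  have hgm : MDiff g := mdiff_div0 hf.mdiff (mdiff_pow0 phi_mdiff a) hφa
  have hgper : Per g := by
    intro z
    simp only [hg]
    rw [hfper z, phi_per z]
  have hφt : Filter.Tendsto (fun z => phi z ^ a) atImInfty (𝓝 1) := by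
    have := phi_tendsto.pow a
    rwa [one_pow] at this
  have hgt : Filter.Tendsto g atImInfty (𝓝 0) := by
    have h := Filter.Tendsto.div hf.zero hφt one_ne_zero
    rw [zero_div] at h
    exact h
  -- the functions `u_i`
  let u : (ℕ → ℂ) → ℕ → ℍ → ℂ := fun c i z =>
    (g z - ∑ j ∈ Finset.range i, c j * yy z ^ j) / yy z ^ i
  have hum : ∀ c i, MDiff (u c i) := fun c i =>
    mdiff_div0 (mdiff_sub0 hgm (mdiff_sum0 c yy_mdiff _)) (mdiff_pow0 yy_mdiff i)
      fun z => pow_ne_zero i (yy_ne z)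
  have huper : ∀ c i, Per (u c i) := by
    intro c i z
    simp only [u]
    rw [hgper z, yy_per z]
  have hus : ∀ (c : ℕ → ℂ) i z, u c (i + 1) z = (u c i z - c i) / psi z * phi z := by
    intro c i z
    simp only [u]
    rw [Finset.sum_range_succ]
    have h1 := yy_ne z
    have h2 := psi_ne_zero z
    have h3 := phi_ne_zero z
    have h4 : psi z = yy z * phi z := by
      unfold yy
      field_simp
    rw [h4]
    field_simp
    ring
  have hstep : ∀ i c, IsBoundedAtImInfty (u c i) → ∃ d : ℂ,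
      IsBoundedAtImInfty (fun z => (u c i z - d) / psi z) := fun i c hb =>
    grow (hum c i) (huper c i) hb
  have hphib : IsBoundedAtImInfty phi := bdd_of_tendsto0 phi_tendsto
  have claim : ∀ i, 1 ≤ i → ∃ c : ℕ → ℂ, c 0 = 0 ∧ IsBoundedAtImInfty (u c i) := by
    intro i hi
    induction i, hi using Nat.le_induction with
    | base =>
      have hu0 : ∀ c, u c 0 = g := by
        intro c
        funext z
        simp [u]
      obtain ⟨d, hd⟩ := hstep 0 (fun _ => 0) (by rw [hu0]; exact bdd_of_tendsto0 hgt)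
      rw [hu0] at hd
      have hd0 : d = 0 := by
        have h1 := tendsto_zero_mul_bdd0 psi_tendsto hd
        have h2 : (fun z => psi z * ((g z - d) / psi z)) = fun z => g z - d := by
          funext z
          have := psi_ne_zero z
          field_simp
        rw [h2] at h1
        have h3 := hgt.sub_const d
        rw [zero_sub] at h3
        have h4 := tendsto_nhds_unique h1 h3
        exact (neg_eq_zero.1 h4.symm)
      refine ⟨fun _ => 0, rfl, ?_⟩
      have h5 : u (fun _ => 0) 1 = fun z => (g z - d) / psi z * phi z := by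
        funext z
        rw [hus, hu0, hd0]
      rw [h5]
      exact bdd_mul0 hd hphib
    | succ i hi ih =>
      obtain ⟨c, hc0, hc⟩ := ih
      obtain ⟨d, hd⟩ := hstep i c hc
      refine ⟨fun j => if j < i then c j else d, ?_, ?_⟩
      · simp only
        rw [if_pos (by omega), hc0]
      · have h1 : ∀ z, u (fun j => if j < i then c j else d) i z = u c i z := by
          intro z
          simp only [u]
          congr 2
          refine Finset.sum_congr rfl fun j hj => ?_
          rw [if_pos (Finset.mem_range.1 hj)]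
        have h5 : u (fun j => if j < i then c j else d) (i + 1) =
            fun z => (u c i z - d) / psi z * phi z := by
          funext z
          rw [hus, h1, if_neg (lt_irrefl i)]
        rw [h5]
        exact bdd_mul0 hd hphib
  obtain ⟨c, hc0, hc⟩ := claim a ha
  -- invariance
  have hinv : Inv 0 (u c a) := by
    intro γ hγ z
    have hdn := denom_ne_zero (γ : GL (Fin 2) ℝ) z
    have h1 : g (γ • z) = g z := by
      simp only [hg]
      rw [hf.inv γ hγ z, phi_inv γ hγ z, mul_pow, ← pow_mul,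
        mul_div_mul_left _ _ (pow_ne_zero _ hdn)]
    simp only [u]
    rw [h1, yy_inv hγ, pow_zero, one_mul]
  -- behaviour at the cusp 0
  have hyt : Filter.Tendsto (fun z => 4096 * yy (hlf0 z)) atImInfty (𝓝 0) := by
    have := (yy_tendsto.comp tendsto_hlf0).const_mul (4096 : ℂ)
    rw [mul_zero] at this
    exact this
  have hsiv : ∀ z, u c a (siv z) = f (siv z) * ((z : ℂ) ^ (4 * a))⁻¹ *
      (256 / phi (hlf0 z)) ^ a - ∑ j ∈ Finset.range a, c j * (4096 * yy (hlf0 z)) ^ (a - j) := by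
    intro z
    simp only [u]
    have hY : (4096 * yy (hlf0 z)) ≠ 0 := mul_ne_zero (by norm_num) (yy_ne _)
    rw [yy_siv, sub_div]
    have e1 : g (siv z) / (4096 * yy (hlf0 z))⁻¹ ^ a =
        f (siv z) * ((z : ℂ) ^ (4 * a))⁻¹ * (256 / phi (hlf0 z)) ^ a := by
      simp only [hg]
      rw [phi_siv]
      have h1 := ne_zero z
      have h2 := psi_ne_zero (hlf0 z)
      have h3 := phi_ne_zero (hlf0 z)
      unfold yy
      rw [inv_pow, div_inv_eq_mul, pow_mul, div_mul_eq_mul_div, mul_assoc (f (siv z)),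
        ← inv_pow, ← mul_pow, div_eq_mul_inv, mul_assoc, ← inv_pow, ← mul_pow]
      congr 2
      field_simp
      norm_num
    rw [e1, Finset.sum_div]
    congr 1
    refine Finset.sum_congr rfl fun j hj => ?_
    have hj' : j ≤ a := (Finset.mem_range.1 hj).le
    rw [inv_pow, inv_pow, div_inv_eq_mul, mul_assoc]
    congr 1
    rw [inv_mul_eq_div, pow_sub₀ _ hY hj', div_eq_mul_inv]
  have hlim : Filter.Tendsto (fun z => u c a (siv z)) atImInfty (𝓝 0) := by
    simp_rw [hsiv]
    have t1 : Filter.Tendsto (fun z => f (siv z) * ((z : ℂ) ^ (4 * a))⁻¹ *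
        (256 / phi (hlf0 z)) ^ a) atImInfty (𝓝 0) := by
      refine tendsto_zero_mul_bdd0 hf.zeroS ?_
      have h1 : Filter.Tendsto (fun z => (256 / phi (hlf0 z)) ^ a) atImInfty (𝓝 ((256 / 1) ^ a)) :=
        ((tendsto_const_nhds (x := (256 : ℂ))).div (phi_tendsto.comp tendsto_hlf0)
          one_ne_zero).pow a
      exact bdd_of_tendsto0 h1
    have t2 : Filter.Tendsto (fun z => ∑ j ∈ Finset.range a,
        c j * (4096 * yy (hlf0 z)) ^ (a - j)) atImInfty (𝓝 0) := by
      have h1 : Filter.Tendsto (fun z => ∑ j ∈ Finset.range a,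
          c j * (4096 * yy (hlf0 z)) ^ (a - j)) atImInfty
          (𝓝 (∑ j ∈ Finset.range a, c j * 0 ^ (a - j))) :=
        tendsto_finsetSum _ fun j _ => (hyt.pow (a - j)).const_mul (c j)
      have h2 : ∑ j ∈ Finset.range a, c j * (0 : ℂ) ^ (a - j) = 0 := by
        refine Finset.sum_eq_zero fun j hj => ?_
        have := Finset.mem_range.1 hj
        rw [zero_pow (by omega), mul_zero]
      rwa [h2] at h1
    have := t1.sub t2
    rwa [sub_zero] at this
  obtain ⟨C, hC⟩ := weight_zero (hum c a) hinv hc (bdd_of_tendsto0 hlim)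
  have hC0 : C = 0 := by
    have h1 : Filter.Tendsto (fun z => u c a (siv z)) atImInfty (𝓝 C) := by
      simp_rw [hC]
      exact tendsto_const_nhds
    exact tendsto_nhds_unique h1 hlim
  refine ⟨c, fun z => ?_⟩
  have h1 := hC z
  rw [hC0] at h1
  simp only [u] at h1
  rw [div_eq_zero_iff, or_iff_left (pow_ne_zero a (yy_ne z)), sub_eq_zero] at h1
  have h2 : f z = g z * phi z ^ a := by
    simp only [hg]
    rw [div_mul_cancel₀ _ (hφa z)]
  rw [h2, h1, Finset.sum_mul]
  have h3 : Finset.range a = insert 0 (Finset.Icc 1 (a - 1)) := by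
    ext j
    simp only [Finset.mem_range, Finset.mem_insert, Finset.mem_Icc]
    omega
  rw [h3, Finset.sum_insert (by simp), hc0, zero_mul, zero_mul, zero_add]
  refine Finset.sum_congr rfl fun j hj => ?_
  have hj' : j ≤ a := by
    have := (Finset.mem_Icc.1 hj).2
    omega
  have h4 : phi z ^ a = phi z ^ (a - j) * phi z ^ j := by
    rw [← pow_add]
    congr 1
    omega
  have h5 := phi_ne_zero z
  unfold yy
  rw [h4, div_pow]
  field_simp

end Pool.Agent.GV.MF
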