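import Pool.Agent.GV.MF.Span0
import Pool.Agent.GV.MF.Esq

/-!
# GV-MF-Span1: cusp forms of weight `4 a + 2` are spanned by `E φ^(a-j) ψ^j`, `1 ≤ j ≤ a - 1`

Plan.  `f * ee` is `IsCF (4 (a+1))` (`zeroS`: `ee (siv z) z^(-2) = - ee(z/2)/2` is bounded), so
`f E = ∑_{j=1}^{a} c_j φ^(a+1-j) ψ^j = φ^(a+1) p(ψ/φ)` with `p = ∑ c_j X^j` of degree `≤ a`, `p(0) = 0`.
Elliptic point: `z0 = (1 + i)/2`, `γ = (1 -1; 2 -1) ∈ Γ₀(2)` fixes `z0` with `denom = 2 z0 - 1 = i`,
so `ee z0 = i² ee z0` and `ee z0 = 0`.  By `ee_sq`, `φ(z0) + 64 ψ(z0) = 0`, so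
`p(-1/64) = 0` (`φ(z0) ≠ 0`) and `p = (1 + 64 X) q`, `q = ∑_{j=1}^{a-1} b_j X^j` (`deg q ≤ a - 1`,
`q(0) = 0`; explicit division or `Polynomial.dvd_iff_isRoot`).  Then
`f E = (φ + 64 ψ) φ^a q(ψ/φ) = E² φ^a q(ψ/φ)`; cancel the holomorphic non-zero `E`
(`UpperHalfPlane.mul_eq_zero_iff`, `ee_tendsto`): `f = E ∑ b_j φ^(a-j) ψ^j`.
-/

open UpperHalfPlane ModularForm CongruenceSubgroup Complex
open scoped MatrixGroups Manifold ModularForm Real Topology

namespace Pool.Agent.GV.MF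

/-- the elliptic point `(1 + i) / 2` -/
private noncomputable def zel : ℍ := ⟨(1 + Complex.I) / 2, by simp⟩

private def gel : Matrix.SpecialLinearGroup (Fin 2) ℤ := ⟨!![1, -1; 2, -1], by simp [Matrix.det_fin_two]⟩

private lemma gel_mem : gel ∈ CongruenceSubgroup.Gamma0 2 := by
  rw [CongruenceSubgroup.Gamma0_mem]
  change ((2 : ℤ) : ZMod 2) = 0
  decide

private lemma denom_gel : UpperHalfPlane.denom gel zel = Complex.I := by
  rw [ModularGroup.denom_apply]
  change ((2 : ℤ) : ℂ) * ((1 + Complex.I) / 2) + ((-1 : ℤ) : ℂ) = Complex.I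
  push_cast
  ring

private lemma gel_smul : gel • zel = zel := by
  apply UpperHalfPlane.ext
  rw [UpperHalfPlane.coe_specialLinearGroup_apply]
  change (((algebraMap ℤ ℝ 1 : ℝ) : ℂ) * ((1 + Complex.I) / 2) + ((algebraMap ℤ ℝ (-1) : ℝ) : ℂ)) /
    (((algebraMap ℤ ℝ 2 : ℝ) : ℂ) * ((1 + Complex.I) / 2) + ((algebraMap ℤ ℝ (-1) : ℝ) : ℂ)) =
    (1 + Complex.I) / 2
  have h : (((algebraMap ℤ ℝ 2 : ℝ) : ℂ) * ((1 + Complex.I) / 2) + ((algebraMap ℤ ℝ (-1) : ℝ) : ℂ))
      = Complex.I := by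
    simp only [algebraMap_int_eq, Int.coe_castRingHom]
    push_cast
    ring
  rw [h, div_eq_iff Complex.I_ne_zero]
  simp only [algebraMap_int_eq, Int.coe_castRingHom]
  push_cast
  linear_combination (-1 / 2 : ℂ) * Complex.I_sq

private lemma ee_zel : ee zel = 0 := by
  have h := ee_inv gel gel_mem zel
  rw [gel_smul, denom_gel, Complex.I_sq] at h
  linear_combination (1 / 2 : ℂ) * h

private lemma phi_psi_zel : phi zel + 64 * psi zel = 0 := by
  rw [← ee_sq, ee_zel]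
  ring

/-- the quotient by `1 + 64 X` -/
private noncomputable def bq (c : ℕ → ℂ) : ℕ → ℂ :=
  fun n => Nat.rec 0 (fun m bm => c (m + 1) - 64 * bm) n

private lemma bq_zero (c : ℕ → ℂ) : bq c 0 = 0 := rfl

private lemma bq_succ (c : ℕ → ℂ) (n : ℕ) : bq c (n + 1) = c (n + 1) - 64 * bq c n := rfl

private lemma tele (c : ℕ → ℂ) (x y : ℂ) (n : ℕ) :
    ∑ j ∈ Finset.Icc 1 n, c j * (x ^ (n + 1 - j) * y ^ j) =
      (x + 64 * y) * (∑ j ∈ Finset.Icc 1 n, bq c j * (x ^ (n - j) * y ^ j)) -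
        64 * bq c n * y ^ (n + 1) := by
  induction n with
  | zero => simp [bq_zero]
  | succ n ih =>
    rw [Finset.sum_Icc_succ_top (by omega), Finset.sum_Icc_succ_top (by omega)]
    have h1 : ∑ j ∈ Finset.Icc 1 n, c j * (x ^ (n + 1 + 1 - j) * y ^ j) =
        x * ∑ j ∈ Finset.Icc 1 n, c j * (x ^ (n + 1 - j) * y ^ j) := by
      rw [Finset.mul_sum]
      refine Finset.sum_congr rfl fun j hj => ?_
      have hj' := Finset.mem_Icc.1 hj
      rw [show n + 1 + 1 - j = (n + 1 - j) + 1 by omega, pow_succ]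
      ring
    have h2 : ∑ j ∈ Finset.Icc 1 n, bq c j * (x ^ (n + 1 - j) * y ^ j) =
        x * ∑ j ∈ Finset.Icc 1 n, bq c j * (x ^ (n - j) * y ^ j) := by
      rw [Finset.mul_sum]
      refine Finset.sum_congr rfl fun j hj => ?_
      have hj' := Finset.mem_Icc.1 hj
      rw [show n + 1 - j = (n - j) + 1 by omega, pow_succ]
      ring
    rw [h1, h2, ih, bq_succ, show n + 1 + 1 - (n + 1) = 1 by omega,
      show n + 1 - (n + 1) = 0 by omega]
    ring

private lemma mdiff_term (b : ℂ) (m n : ℕ) : MDiff (fun z => b * (phi z ^ m * psi z ^ n)) := by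
  rw [UpperHalfPlane.mdifferentiable_iff]
  have h1 := UpperHalfPlane.mdifferentiable_iff.1 phi_mdiff
  have h2 := UpperHalfPlane.mdifferentiable_iff.1 psi_mdiff
  exact (differentiableOn_const b).mul ((h1.pow m).mul (h2.pow n))

private lemma mdiff_S (b : ℕ → ℂ) (a : ℕ) :
    MDiff (fun z => ∑ j ∈ Finset.Icc 1 (a - 1), b j * (phi z ^ (a - j) * psi z ^ j)) := by
  rw [UpperHalfPlane.mdifferentiable_iff]
  exact DifferentiableOn.fun_sum fun j _ =>
    UpperHalfPlane.mdifferentiable_iff.1 (mdiff_term (b j) (a - j) j)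

private lemma mul_ee_isCF {a : ℕ} {f : ℍ → ℂ} (hf : IsCF (4 * a + 2) f) :
    IsCF (4 * (a + 1)) (fun z => f z * ee z) where
  mdiff := hf.mdiff.mul ee_mdiff
  inv := by
    intro γ hγ z
    simp only
    rw [hf.inv γ hγ z, ee_inv γ hγ z]
    ring
  zero := by
    have h := Filter.Tendsto.mul hf.zero ee_tendsto
    rw [zero_mul] at h
    exact h
  zeroS := by
    have h1 : Filter.Tendsto (fun z : ℍ => -(ee (hlf0 z)) / 2) atImInfty (𝓝 (-1 / 2)) :=
      ((ee_tendsto.comp tendsto_hlf0).neg).div_const 2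
    have h := Filter.Tendsto.mul hf.zeroS h1
    rw [zero_mul] at h
    refine Filter.Tendsto.congr (fun z => ?_) h
    have hz : (z : ℂ) ≠ 0 := UpperHalfPlane.ne_zero z
    rw [ee_siv]
    field_simp
    ring

theorem span1 (a : ℕ) (ha : 1 ≤ a) (f : ℍ → ℂ) (hf : IsCF (4 * a + 2) f) :
    ∃ c : ℕ → ℂ, ∀ z,
      f z = ∑ j ∈ Finset.Icc 1 (a - 1), c j * (ee z * phi z ^ (a - j) * psi z ^ j) := by
  obtain ⟨c, hc⟩ := span0 (a + 1) (by omega) _ (mul_ee_isCF hf)
  rw [show a + 1 - 1 = a by omega] at hc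
  have hba : bq c a = 0 := by
    have h1 := hc zel
    rw [tele, ee_zel, phi_psi_zel] at h1
    have h2 : bq c a * psi zel ^ (a + 1) = 0 := by linear_combination (1 / 64 : ℂ) * h1
    exact (mul_eq_zero.1 h2).resolve_right (pow_ne_zero _ (psi_ne_zero zel))
  set S : ℍ → ℂ := fun z =>
    ∑ j ∈ Finset.Icc 1 (a - 1), bq c j * (phi z ^ (a - j) * psi z ^ j) with hS
  have hF : ∀ z, f z * ee z = ee z ^ 2 * S z := by
    intro z
    have h1 := hc z
    rw [tele, hba, ← ee_sq] at h1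
    rw [h1, hS]
    obtain ⟨m, rfl⟩ : ∃ m, a = m + 1 := ⟨a - 1, by omega⟩
    rw [Finset.sum_Icc_succ_top (by omega), hba, show m + 1 - 1 = m by omega]
    ring
  have hprod : (f - fun z => ee z * S z) * ee = 0 := by
    funext z
    simp only [Pi.mul_apply, Pi.sub_apply, Pi.zero_apply]
    linear_combination hF z
  rcases (UpperHalfPlane.mul_eq_zero_iff (hf.mdiff.sub (ee_mdiff.mul (mdiff_S (bq c) a)))
    ee_mdiff).1 hprod with h | h
  · refine ⟨bq c, fun z => ?_⟩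
    have h1 : f z - ee z * S z = 0 := congrFun h z
    rw [sub_eq_zero] at h1
    rw [h1, hS]
    simp only
    rw [Finset.mul_sum]
    refine Finset.sum_congr rfl fun j _ => ?_
    ring
  · exfalso
    have h1 := ee_tendsto
    rw [h] at h1
    have h2 := tendsto_nhds_unique h1 (tendsto_const_nhds (x := (0 : ℂ)) (f := atImInfty))
    exact one_ne_zero h2

end Pool.Agent.GV.MF
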