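import Pool.Agent.GV.MF.Geo

/-!
# GV-MF-UUr: rules for `UU`

Plan.  `UU_mul_dbl`: `dbl (hlf0 z) = z`, `dbl (hlf1 z) = shf z` (file Geo).
`UU_hasSum`: `q(z/2)^2 = q(z)` and `q((z+1)/2) = - q(z/2)`; so
`F(z/2) + F((z+1)/2) = ∑ a_n q(z/2)^n (1 + (-1)^n) = 2 ∑_m a_(2m) q(z)^m`
(`HasSum.add`, then `hasSum` of a function supported on even numbers:
`Function.Injective.hasSum_iff` for `n ↦ 2 n`).
-/

open UpperHalfPlane ModularForm CongruenceSubgroup Complex
open scoped MatrixGroups Manifold ModularForm Real Topology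

namespace Pool.Agent.GV.MF

lemma UU_add (F G : ℍ → ℂ) (z : ℍ) : UU (fun z => F z + G z) z = UU F z + UU G z := by
  unfold UU
  ring

lemma UU_smul (c : ℂ) (F : ℍ → ℂ) (z : ℍ) : UU (fun z => c * F z) z = c * UU F z := by
  unfold UU
  ring

lemma UU_mul_dbl (F : ℍ → ℂ) {G : ℍ → ℂ} (hG : Per G) (z : ℍ) :
    UU (fun z => F z * G (dbl z)) z = G z * UU F z := by
  have h : UU (fun z => F z * G (dbl z)) z =
      (F (hlf0 z) * G (dbl (hlf0 z)) + F (hlf1 z) * G (dbl (hlf1 z))) / 2 := rfl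
  rw [h, dbl_hlf0, dbl_hlf1, hG z]
  unfold UU
  ring

private lemma uur_qq0 (z : ℍ) : qq (hlf0 z) ^ 2 = qq z := by
  unfold qq
  rw [coe_hlf0, ← Complex.exp_nat_mul]
  congr 1
  push_cast
  ring

private lemma uur_qq1 (z : ℍ) : qq (hlf1 z) = - qq (hlf0 z) := by
  unfold qq
  rw [coe_hlf0, coe_hlf1]
  have h : 2 * (π : ℂ) * Complex.I * (((z : ℂ) + 1) / 2) =
      2 * (π : ℂ) * Complex.I * ((z : ℂ) / 2) + π * Complex.I := by ring
  rw [h, Complex.exp_add, Complex.exp_pi_mul_I]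
  ring

lemma UU_hasSum {F : ℍ → ℂ} {a : ℕ → ℂ} (hF : ∀ z : ℍ, HasSum (fun n => a n * qq z ^ n) (F z))
    (z : ℍ) : HasSum (fun n => a (2 * n) * qq z ^ n) (UU F z) := by
  have h1 := ((hF (hlf0 z)).add (hF (hlf1 z))).div_const 2
  have h2 : (F (hlf0 z) + F (hlf1 z)) / 2 = UU F z := rfl
  rw [h2] at h1
  have hinj : Function.Injective (fun n : ℕ => 2 * n) := fun x y h => by
    have : 2 * x = 2 * y := h
    omega
  rw [← hinj.hasSum_iff] at h1
  · have h3 : ((fun n => (a n * qq (hlf0 z) ^ n + a n * qq (hlf1 z) ^ n) / 2) ∘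
        fun n : ℕ => 2 * n) = fun n => a (2 * n) * qq z ^ n := by
      funext n
      simp only [Function.comp_apply]
      rw [uur_qq1, (even_two_mul n).neg_pow, pow_mul, uur_qq0]
      ring
    rw [h3] at h1
    exact h1
  · intro n hn
    have hodd : Odd n := by
      rw [← Nat.not_even_iff_odd]
      rintro ⟨m, hm⟩
      exact hn ⟨m, by show 2 * m = n; omega⟩
    rw [uur_qq1, hodd.neg_pow]
    ring

/-- uniqueness: two functions with the same expansion are equal -/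
lemma eq_of_hasSum {F G : ℍ → ℂ} {a : ℕ → ℂ} (hF : ∀ z : ℍ, HasSum (fun n => a n * qq z ^ n) (F z))
    (hG : ∀ z : ℍ, HasSum (fun n => a n * qq z ^ n) (G z)) : F = G :=
  funext fun z => (hF z).unique (hG z)

end Pool.Agent.GV.MF
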